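import Mathlib

/-!
Two arms from the origin with a common end point, each continued by a tail: if the tails avoid the
arms and one another, the four pieces are determined by the two walks which start at the common end
point (their last common site is the origin).
-/

set_option autoImplicit false

namespace Pool.Agent.H986.TA

/-- neighbours -/
def Adj (p q : ℤ × ℤ) : Prop := |q.1 - p.1| + |q.2 - p.2| = 1

lemma Adj.symm {p q : ℤ × ℤ} (h : Adj p q) : Adj q p := by
  unfold Adj at *
  rw [abs_sub_comm p.1, abs_sub_comm p.2]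
  exact h

lemma Adj.sub {p q : ℤ × ℤ} (v : ℤ × ℤ) (h : Adj p q) : Adj (p - v) (q - v) := by
  unfold Adj at *
  simpa using h

/-- self-avoiding walks from the origin, as lists of sites -/
structure IsW (w : List (ℤ × ℤ)) : Prop where
  hd : w.head? = some 0
  ch : w.IsChain Adj
  nd : w.Nodup

/-- no common site except the origin -/
def Dj (a b : List (ℤ × ℤ)) : Prop := ∀ x ∈ a, x ∈ b → x = 0

lemma Dj.symm {a b : List (ℤ × ℤ)} (h : Dj a b) : Dj b a := fun x h1 h2 => h x h2 h1

/-- the end point -/
def en (w : List (ℤ × ℤ)) : ℤ × ℤ := w.getLastD 0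

/-- the walk from the end point of `a` along `a` to the origin and along `b`, translated -/
def F (a b : List (ℤ × ℤ)) : List (ℤ × ℤ) := (a.reverse ++ b.tail).map (fun p => p - en a)

lemma IsW.eq {w : List (ℤ × ℤ)} (h : IsW w) : ∃ t, w = 0 :: t := by
  cases w with
  | nil => have := h.hd; simp at this
  | cons x t =>
    have := h.hd
    simp at this
    exact ⟨t, by rw [this]⟩

lemma en_cons_ne {t : List (ℤ × ℤ)} (ht : t ≠ []) : en (0 :: t) = t.getLast ht := by
  unfold en
  rw [List.getLastD_cons]
  rw [List.getLastD_eq_getLast?, List.getLast?_eq_getLast_of_ne_nil ht]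
  rfl

lemma rev_head {w : List (ℤ × ℤ)} (h : IsW w) : w.reverse.head? = some (en w) := by
  obtain ⟨t, rfl⟩ := h.eq
  rw [List.head?_reverse]
  unfold en
  rw [List.getLastD_eq_getLast?]
  simp [List.getLast?_cons]

lemma F_isW {a b : List (ℤ × ℤ)} (ha : IsW a) (hb : IsW b) (hd : Dj a b) : IsW (F a b) := by
  obtain ⟨s, rfl⟩ := hb.eq
  refine ⟨?_, ?_, ?_⟩
  · unfold F
    rw [List.head?_map, List.head?_append, rev_head ha]
    simp
  · unfold F
    rw [List.isChain_map]
    have h1 : (a.reverse ++ s).IsChain Adj := by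
      rw [List.isChain_append]
      refine ⟨?_, ?_, ?_⟩
      · rw [List.isChain_reverse]
        exact ha.ch.imp fun _ _ h => h.symm
      · have := hb.ch
        exact this.tail
      · intro x hx y hy
        rw [List.getLast?_reverse] at hx
        rw [ha.hd] at hx
        have hx0 : x = 0 := by
          simp at hx
          exact hx.symm
        subst hx0
        have := hb.ch
        cases s with
        | nil => simp at hy
        | cons z s =>
          simp at hy
          subst hy
          rw [List.isChain_cons_cons] at this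
          exact this.1
    simpa using h1.imp fun _ _ h => h.sub (en a)
  · unfold F
    refine List.Nodup.map (fun p q h => by simpa using h) ?_
    rw [List.tail_cons, List.nodup_append']
    refine ⟨List.nodup_reverse.2 ha.nd, (List.nodup_cons.1 hb.nd).2, ?_⟩
    intro x hx hx2
    have h0 : x = 0 := hd x (List.mem_reverse.1 hx) (List.mem_cons_of_mem _ hx2)
    rw [h0] at hx2
    exact (List.nodup_cons.1 hb.nd).1 hx2

lemma F_len {a b : List (ℤ × ℤ)} (hb : IsW b) : (F a b).length + 1 = a.length + b.length := by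
  obtain ⟨s, rfl⟩ := hb.eq
  unfold F
  simp
  omega

lemma mem_F {a b : List (ℤ × ℤ)} {x : ℤ × ℤ} : x ∈ F a b ↔ ∃ p, (p ∈ a ∨ p ∈ b.tail) ∧ p - en a = x := by
  unfold F
  rw [List.mem_map]
  constructor
  · rintro ⟨p, hp, hx⟩
    rw [List.mem_append, List.mem_reverse] at hp
    exact ⟨p, hp, hx⟩
  · rintro ⟨p, hp, hx⟩
    exact ⟨p, by rw [List.mem_append, List.mem_reverse]; exact hp, hx⟩

lemma F_get_org {a b : List (ℤ × ℤ)} (ha : IsW a) : (F a b)[a.length - 1]? = some (0 - en a) := by
  obtain ⟨t, rfl⟩ := ha.eq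
  unfold F
  rw [List.getElem?_map, List.getElem?_append_left (by simp)]
  rw [List.getElem?_reverse (by simp)]
  simp

lemma F_get_right {a b : List (ℤ × ℤ)} {k : ℕ} (hk : a.length ≤ k) {x : ℤ × ℤ}
    (hx : (F a b)[k]? = some x) : ∃ p ∈ b.tail, p - en a = x := by
  unfold F at hx
  rw [List.getElem?_map, List.getElem?_append_right (by simpa using hk)] at hx
  rw [Option.map_eq_some_iff] at hx
  obtain ⟨p, hp, hpx⟩ := hx
  exact ⟨p, List.mem_of_getElem? hp, hpx⟩

lemma len_aux {a b a3 d a' b' a3' d' : List (ℤ × ℤ)}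
    (hb : IsW b) (ha' : IsW a') (ha3' : IsW a3')
    (h1 : en a = en a3) (h1' : en a' = en a3') (h2 : Dj a3 b) (h3 : Dj b d)
    (e1 : F a b = F a' b') (e2 : F a3 d = F a3' d') : ¬ a.length < a'.length := by
  intro hlt
  have g1 := F_get_org (b := b') ha'
  rw [← e1] at g1
  obtain ⟨p, hp, hpx⟩ := F_get_right (by omega) g1
  -- the same site is on the second walk
  have g2 : 0 - en a' ∈ F a3' d' := by
    rw [mem_F]
    refine ⟨0, Or.inl ?_, by rw [h1']⟩
    obtain ⟨t, rfl⟩ := ha3'.eq
    simp
  rw [← e2, mem_F] at g2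
  obtain ⟨s, hs, hsx⟩ := g2
  have hps : p = s := by
    rw [← hsx, h1] at hpx
    exact sub_left_injective hpx
  subst hps
  obtain ⟨t, rfl⟩ := hb.eq
  rw [List.tail_cons] at hp
  have h0 : p = 0 := by
    rcases hs with hs | hs
    · exact h2 p hs (List.mem_cons_of_mem _ hp)
    · exact h3 p (List.mem_cons_of_mem _ hp) (List.mem_of_mem_tail hs)
  rw [h0] at hp
  exact (List.nodup_cons.1 hb.nd).1 hp

lemma cut_inj {a b a' b' : List (ℤ × ℤ)} (hb : IsW b) (hb' : IsW b')
    (hl : a.length = a'.length) (he : en a = en a') (e : F a b = F a' b') : a = a' ∧ b = b' := by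
  unfold F at e
  rw [he] at e
  have e2 := List.map_injective_iff.2 (sub_left_injective (b := en a')) e
  have e3 := List.append_inj e2 (by simpa using hl)
  obtain ⟨t, rfl⟩ := hb.eq
  obtain ⟨t', rfl⟩ := hb'.eq
  refine ⟨List.reverse_injective e3.1, ?_⟩
  have := e3.2
  rw [List.tail_cons, List.tail_cons] at this
  rw [this]

/-- The four pieces are determined by the two walks. -/
theorem F_inj {a b a3 d a' b' a3' d' : List (ℤ × ℤ)}
    (ha : IsW a) (hb : IsW b) (ha3 : IsW a3) (hd : IsW d)
    (ha' : IsW a') (hb' : IsW b') (ha3' : IsW a3') (hd' : IsW d')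
    (h1 : en a = en a3) (h1' : en a' = en a3')
    (h2 : Dj a3 b) (h3 : Dj b d) (h4 : Dj a3 d) (h2' : Dj a3' b') (h3' : Dj b' d')
    (e1 : F a b = F a' b') (e2 : F a3 d = F a3' d') :
    a = a' ∧ b = b' ∧ a3 = a3' ∧ d = d' := by
  have l1 := len_aux hb ha' ha3' h1 h1' h2 h3 e1 e2
  have l2 := len_aux hb' ha ha3 h1' h1 h2' h3' e1.symm e2.symm
  have hl : a.length = a'.length := by omega
  have hen : en a = en a' := by
    have g1 := F_get_org (b := b') ha'
    have g2 := F_get_org (b := b) ha
    rw [e1, hl, g1] at g2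
    have := Option.some.inj g2
    have h5 : en a' = en a := by
      have := congrArg (fun v => 0 - v) this
      simpa using this
    exact h5.symm
  obtain ⟨r1, r2⟩ := cut_inj hb hb' hl hen e1
  have hen3 : en a3 = en a3' := by rw [← h1, ← h1', hen]
  have hl3 : a3.length = a3'.length := by
    have g1 := F_get_org (b := d) ha3
    have g2 := F_get_org (b := d') ha3'
    rw [← e2, ← hen3] at g2
    have hnd := (F_isW ha3 hd h4).nd
    have p1 : a3.length - 1 < (F a3 d).length := by
      rw [List.getElem?_eq_some_iff] at g1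
      exact g1.1
    have := (List.getElem?_inj p1 hnd).1 (g1.trans g2.symm)
    obtain ⟨t, ht⟩ := ha3.eq
    obtain ⟨t', ht'⟩ := ha3'.eq
    rw [ht, ht'] at this ⊢
    simp at this ⊢
    exact this
  obtain ⟨r3, r4⟩ := cut_inj hd hd' hl3 hen3 e2
  exact ⟨r1, r2, r3, r4⟩

end Pool.Agent.H986.TA
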