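import Pool.Agent.H986.TA.Fin

/-!
Three arms: all lengths, and the consequences.
-/

set_option autoImplicit false

namespace Pool.Agent.H986.TA

open Finset

open Pool.Agent.TH262.UL (IsSAW a rr Hy p)

theorem three : ∃ c' A : ℝ, 0 < c' ∧ 0 < A ∧ ∀ N : ℕ, 16 ≤ N →
    ∀ n m k : ℕ, N ≤ n → N ≤ m → N ≤ k → (n : ℝ) ≤ N + Real.exp ((N : ℝ) ^ (1 / 10 : ℝ)) →
      (m : ℝ) ≤ N + Real.exp ((N : ℝ) ^ (1 / 10 : ℝ)) →
      (k : ℝ) ≤ N + Real.exp ((N : ℝ) ^ (1 / 10 : ℝ)) →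
      q3 n m k ≤ A * rate c' N * √(p rr n m) := by
  obtain ⟨c', A, N₀, hc', hA, h⟩ := three_large
  obtain ⟨K₀, c, C, hy⟩ := Pool.Agent.TH262.UL.hy
  obtain ⟨M, hM⟩ : ∃ M : ℕ, (N₀ : ℝ) + Real.exp ((N₀ : ℝ) ^ (1 / 10 : ℝ)) ≤ M := exists_nat_ge _
  obtain ⟨W, hW⟩ : ∃ W, W = ∑ k ∈ range (M + 1), rr k := ⟨_, rfl⟩
  have hrW : ∀ k, k ≤ M → rr k ≤ W := by
    intro k hk
    rw [hW]
    exact single_le_sum (f := rr) (fun k _ => (hy.pos k).le) (mem_range.2 (by omega))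
  have hW1 : 1 ≤ W := (hy.one 0).trans (hrW 0 (Nat.zero_le _))
  refine ⟨c', max A (W * ((N₀ : ℝ) + 1) ^ c'), hc', lt_max_of_lt_left hA, ?_⟩
  intro N hN n m k hn hm hk hn' hm' hk'
  have hr := rate_pos (c := c') hN
  rcases Nat.lt_or_ge N N₀ with h1 | h1
  · refine (q3_le_one n m k).trans ?_
    have hN0 : (0 : ℝ) < N := by exact_mod_cast (by omega : 0 < N)
    have hNN : (N : ℝ) ≤ N₀ := by exact_mod_cast h1.le
    have hexp : Real.exp ((N : ℝ) ^ (1 / 10 : ℝ)) ≤ Real.exp ((N₀ : ℝ) ^ (1 / 10 : ℝ)) :=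
      Real.exp_le_exp.2 (Real.rpow_le_rpow hN0.le hNN (by norm_num))
    have hnM : n ≤ M := by
      have : (n : ℝ) ≤ M := by linarith
      exact_mod_cast this
    have hmM : m ≤ M := by
      have : (m : ℝ) ≤ M := by linarith
      exact_mod_cast this
    have hp1 := hy.pos n
    have hp2 := hy.pos m
    have g1 : 1 / W ≤ √(p rr n m) := by
      apply Real.le_sqrt_of_sq_le
      unfold p
      rw [div_pow, one_pow, div_le_div_iff₀ (by positivity) (by positivity), one_mul]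
      have h3 := hy.one (n + m)
      calc rr n * rr m ≤ W * W := mul_le_mul (hrW n hnM) (hrW m hmM) hp2.le (by linarith)
        _ = 1 * W ^ 2 := by ring
        _ ≤ rr (n + m) * W ^ 2 := mul_le_mul_of_nonneg_right h3 (by positivity)
    have g2 : 1 / ((N₀ : ℝ) + 1) ^ c' ≤ rate c' N := by
      have hll := loglog_ge hN
      have hN1 : (1 : ℝ) ≤ N := by exact_mod_cast (by omega : 1 ≤ N)
      unfold rate
      rw [Real.rpow_neg hN0.le, ← one_div]
      refine one_div_le_one_div_of_le (by positivity) ?_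
      calc (N : ℝ) ^ (c' / Real.log (Real.log N)) ≤ (N : ℝ) ^ c' :=
            Real.rpow_le_rpow_of_exponent_le hN1 (div_le_self hc'.le hll)
        _ ≤ ((N₀ : ℝ) + 1) ^ c' := Real.rpow_le_rpow hN0.le (by linarith) hc'.le
    calc (1 : ℝ) = (W * ((N₀ : ℝ) + 1) ^ c') * (1 / ((N₀ : ℝ) + 1) ^ c') * (1 / W) := by
          have : (0 : ℝ) < ((N₀ : ℝ) + 1) ^ c' := by positivity
          field_simp
      _ ≤ max A (W * ((N₀ : ℝ) + 1) ^ c') * rate c' N * √(p rr n m) := by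
          have := le_max_right A (W * ((N₀ : ℝ) + 1) ^ c')
          gcongr
  · refine (h N h1 hN n m k hn hm hk hn' hm' hk').trans ?_
    have := le_max_left A (W * ((N₀ : ℝ) + 1) ^ c')
    gcongr

/-- The consequences. -/
theorem all : ∃ c' A : ℝ, 0 < c' ∧ 0 < A ∧
    (∀ N : ℕ, 16 ≤ N →
    ∀ n m k : ℕ, N ≤ n → N ≤ m → N ≤ k → (n : ℝ) ≤ N + Real.exp ((N : ℝ) ^ (1 / 10 : ℝ)) →
      (m : ℝ) ≤ N + Real.exp ((N : ℝ) ^ (1 / 10 : ℝ)) →
      (k : ℝ) ≤ N + Real.exp ((N : ℝ) ^ (1 / 10 : ℝ)) →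
      q3 n m k ≤ A * rate c' N * √(p rr n m)) ∧
    (∀ n : ℕ, 16 ≤ n → p rr n n ≤ 1 / 2 + A * rate c' n) ∧
    ∀ n : ℕ, 16 ≤ n → 2 - A * rate c' n ≤ rr n := by
  obtain ⟨c', A, hc', hA, h⟩ := three
  obtain ⟨K₀, c, C, hy⟩ := Pool.Agent.TH262.UL.hy
  have h2 : ∀ n : ℕ, 16 ≤ n → p rr n n ≤ 1 / 2 + A * rate c' n := by
    intro n hn
    have hr := rate_pos (c := c') hn
    have hle : (n : ℝ) ≤ n + Real.exp ((n : ℝ) ^ (1 / 10 : ℝ)) := by
      have := Real.exp_pos ((n : ℝ) ^ (1 / 10 : ℝ))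
      linarith
    have h3 := h n hn n n n le_rfl le_rfl le_rfl hle hle hle
    have hp1 : p rr n n ≤ 1 := by
      have hp := hy.pos n
      unfold p
      rw [div_le_one (by positivity)]
      exact rr_mul_le n n
    have h4 : √(p rr n n) ≤ 1 := Real.sqrt_le_one.2 hp1
    refine two_of_three (by positivity) (h3.trans ?_)
    calc A * rate c' n * √(p rr n n) ≤ A * rate c' n * 1 :=
          mul_le_mul_of_nonneg_left h4 (by positivity)
      _ = _ := mul_one _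
  refine ⟨c', 4 * A, hc', by positivity, ?_, ?_, ?_⟩
  · intro N hN n m k h3 h4 h5 h6 h7 h8
    refine (h N hN n m k h3 h4 h5 h6 h7 h8).trans ?_
    have hr := rate_pos (c := c') hN
    have : A ≤ 4 * A := by linarith
    gcongr
  · intro n hn
    refine (h2 n hn).trans ?_
    have hr := rate_pos (c := c') hn
    have : A * rate c' n ≤ 4 * A * rate c' n := by
      have := mul_pos hA hr
      nlinarith
    linarith
  · intro n hn
    have hr := rate_pos (c := c') hn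
    have hx : 0 < A * rate c' n := by positivity
    have h5 : 1 / (1 / 2 + A * rate c' n) ≤ rr n := by
      refine rr_ge hy (by positivity) fun j => ?_
      have hnj : n ≤ 2 ^ j * n := Nat.le_mul_of_pos_left n (by positivity)
      refine (h2 _ (hn.trans hnj)).trans ?_
      have := rate_anti hc'.le hn hnj
      gcongr
    refine le_trans ?_ h5
    rw [le_div_iff₀ (by positivity)]
    nlinarith

end Pool.Agent.H986.TA
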