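import Pool.Agent.H986.TA.Key

/-!
The key inequality in terms of the numbers of three arms and of pairs.
-/

set_option autoImplicit false

namespace Pool.Agent.H986.TA

open Finset

open scoped Classical in
/-- the weight of the arms `a` with a number of steps in `L` which avoid `b`, `d` -/
noncomputable def ha (x : ℝ) (L : Finset ℕ) (b d : List (ℤ × ℤ)) : ℝ :=
  ∑ a ∈ (WS L).filter (fun a => Dj a b ∧ Dj a d), x ^ (a.length - 1)

open scoped Classical in
/-- the weight of the walks with a number of steps in `L` which do not end in `V` -/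
noncomputable def ho (x : ℝ) (L : Finset ℕ) (V : Finset (ℤ × ℤ)) : ℝ :=
  ∑ a ∈ (WS L).filter (fun a => en a ∉ V), x ^ (a.length - 1)

lemma ha_le {x : ℝ} (hx : 0 ≤ x) (L : Finset ℕ) (V : Finset (ℤ × ℤ)) (b d : List (ℤ × ℤ)) :
    ha x L b d ≤ ∑ y ∈ V, hh x L b d y + ho x L V := by
  classical
  unfold ha hh ho
  have e : ∑ y ∈ V, ∑ a ∈ (WS L).filter (fun a => en a = y ∧ Dj a b ∧ Dj a d), x ^ (a.length - 1) =
      ∑ a ∈ (WS L).filter (fun a => en a ∈ V ∧ Dj a b ∧ Dj a d), x ^ (a.length - 1) := by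
    simp only [sum_filter]
    rw [sum_comm]
    refine sum_congr rfl fun a _ => ?_
    by_cases h : Dj a b ∧ Dj a d
    · simp only [h, and_true]
      by_cases h2 : en a ∈ V
      · rw [sum_ite_eq V (en a), if_pos h2]
      · rw [sum_ite_eq V (en a), if_neg h2]
    · simp only [h, and_false, if_false, sum_const_zero]
  rw [e, ← sum_filter_add_sum_filter_not ((WS L).filter (fun a => Dj a b ∧ Dj a d))
    (fun a => en a ∈ V)]
  refine add_le_add (le_of_eq ?_) ?_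
  · rw [filter_filter]
    refine sum_congr ?_ fun _ _ => rfl
    ext a
    simp only [mem_filter]
    tauto
  · refine sum_le_sum_of_subset_of_nonneg ?_ (fun a _ _ => by positivity)
    intro a ha
    simp only [mem_filter] at ha ⊢
    tauto

/-- the weights of the pairs -/
noncomputable def hX (x : ℝ) (I J : Finset ℕ) : ℝ :=
  ∑ q ∈ prs I J, x ^ (q.1.length - 1) * x ^ (q.2.length - 1)

/-- the weights of the three arms -/
noncomputable def hT (x : ℝ) (I J L : Finset ℕ) : ℝ :=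
  ∑ q ∈ prs I J, x ^ (q.1.length - 1) * x ^ (q.2.length - 1) * ha x L q.1 q.2

theorem hT_le {x : ℝ} (hx : 0 ≤ x) (I J L K1 K2 : Finset ℕ) (V : Finset (ℤ × ℤ))
    (h1 : ∀ n ∈ I, ∀ l ∈ L, n + l ∈ K1) (h2 : ∀ m ∈ J, ∀ l ∈ L, m + l ∈ K2) :
    hT x I J L ≤ √((V.card * hX x I J) *
      ((∑ w ∈ WS K1, x ^ (w.length - 1)) * ∑ w ∈ WS K2, x ^ (w.length - 1))) +
      hX x I J * ho x L V := by
  have hk := key_cs hx I J L K1 K2 V h1 h2
  have e : ∑ q ∈ prs I J ×ˢ V, x ^ (q.1.1.length - 1) * x ^ (q.1.2.length - 1) *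
        hh x L q.1.1 q.1.2 q.2 = ∑ q ∈ prs I J, x ^ (q.1.length - 1) * x ^ (q.2.length - 1) *
        ∑ y ∈ V, hh x L q.1 q.2 y := by
    rw [sum_product]
    refine sum_congr rfl fun q _ => ?_
    rw [mul_sum]
  have h3 := Real.le_sqrt_of_sq_le hk
  rw [e] at h3
  unfold hT
  calc ∑ q ∈ prs I J, x ^ (q.1.length - 1) * x ^ (q.2.length - 1) * ha x L q.1 q.2
      ≤ ∑ q ∈ prs I J, x ^ (q.1.length - 1) * x ^ (q.2.length - 1) *
        (∑ y ∈ V, hh x L q.1 q.2 y + ho x L V) := by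
        refine sum_le_sum fun q _ => ?_
        exact mul_le_mul_of_nonneg_left (ha_le hx L V q.1 q.2) (by positivity)
    _ = ∑ q ∈ prs I J, x ^ (q.1.length - 1) * x ^ (q.2.length - 1) *
        ∑ y ∈ V, hh x L q.1 q.2 y + hX x I J * ho x L V := by
        unfold hX
        rw [sum_mul, ← sum_add_distrib]
        refine sum_congr rfl fun q _ => ?_
        ring
    _ ≤ _ := by
        unfold hX
        gcongr

open scoped Classical in
/-- the number of pairs with `n` and `m` steps which do not meet -/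
noncomputable def t2 (n m : ℕ) : ℕ := ((Wn n ×ˢ Wn m).filter (fun q => Dj q.1 q.2)).card

open scoped Classical in
/-- the number of three arms with `n`, `m` and `l` steps -/
noncomputable def t3 (n m l : ℕ) : ℕ :=
  ((Wn n ×ˢ (Wn m ×ˢ Wn l)).filter
    (fun q => Dj q.1 q.2.1 ∧ Dj q.2.2 q.1 ∧ Dj q.2.2 q.2.1)).card

lemma len_Wn {n : ℕ} {w : List (ℤ × ℤ)} (h : w ∈ Wn n) : w.length - 1 = n := by
  rw [mem_Wn] at h
  omega

lemma hX_eq (x : ℝ) (I J : Finset ℕ) :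
    hX x I J = ∑ n ∈ I, ∑ m ∈ J, x ^ (n + m) * (t2 n m : ℝ) := by
  classical
  unfold hX prs t2
  rw [sum_filter, sum_product, sum_WS]
  refine sum_congr rfl fun n _ => ?_
  have e : ∀ b ∈ Wn n, ∑ d ∈ WS J, (if Dj (b, d).1 (b, d).2 then
      x ^ ((b, d).1.length - 1) * x ^ ((b, d).2.length - 1) else 0) =
      ∑ m ∈ J, ∑ d ∈ Wn m, (if Dj b d then x ^ (n + m) else 0) := by
    intro b hb
    rw [sum_WS]
    refine sum_congr rfl fun m _ => sum_congr rfl fun d hd => ?_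
    simp only [len_Wn hb, len_Wn hd, ← pow_add]
  rw [sum_congr rfl e, sum_comm]
  refine sum_congr rfl fun m _ => ?_
  rw [← sum_product' (f := fun b d => if Dj b d then x ^ (n + m) else 0), ← sum_filter, sum_const,
    nsmul_eq_mul, mul_comm]

lemma hT_eq (x : ℝ) (I J L : Finset ℕ) :
    hT x I J L = ∑ n ∈ I, ∑ m ∈ J, ∑ l ∈ L, x ^ (n + m + l) * (t3 n m l : ℝ) := by
  classical
  unfold hT prs t3 ha
  rw [sum_filter, sum_product, sum_WS]
  refine sum_congr rfl fun n _ => ?_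
  have e : ∀ b ∈ Wn n, ∑ d ∈ WS J, (if Dj (b, d).1 (b, d).2 then
      x ^ ((b, d).1.length - 1) * x ^ ((b, d).2.length - 1) *
        ∑ a ∈ (WS L).filter (fun a => Dj a (b, d).1 ∧ Dj a (b, d).2), x ^ (a.length - 1) else 0) =
      ∑ m ∈ J, ∑ d ∈ Wn m, ∑ l ∈ L, ∑ a ∈ Wn l,
        (if Dj b d ∧ Dj a b ∧ Dj a d then x ^ (n + m + l) else 0) := by
    intro b hb
    rw [sum_WS]
    refine sum_congr rfl fun m _ => sum_congr rfl fun d hd => ?_
    simp only [len_Wn hb, len_Wn hd]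
    rw [sum_filter, sum_WS]
    by_cases h : Dj b d
    · rw [if_pos h, mul_sum]
      refine sum_congr rfl fun l _ => ?_
      rw [mul_sum]
      refine sum_congr rfl fun a ha => ?_
      rw [len_Wn ha]
      by_cases h2 : Dj a b ∧ Dj a d
      · rw [if_pos h2, if_pos ⟨h, h2⟩, pow_add, pow_add]
      · have h3 : ¬ (Dj b d ∧ Dj a b ∧ Dj a d) := fun h4 => h2 h4.2
        rw [if_neg h2, if_neg h3, mul_zero]
    · rw [if_neg h]
      symm
      refine sum_eq_zero fun l _ => sum_eq_zero fun a _ => ?_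
      rw [if_neg (fun h4 => h h4.1)]
  rw [sum_congr rfl e, sum_comm]
  refine sum_congr rfl fun m _ => ?_
  have e2 : ∑ b ∈ Wn n, ∑ d ∈ Wn m, ∑ l ∈ L, ∑ a ∈ Wn l,
        (if Dj b d ∧ Dj a b ∧ Dj a d then x ^ (n + m + l) else 0) =
      ∑ l ∈ L, ∑ b ∈ Wn n, ∑ d ∈ Wn m, ∑ a ∈ Wn l,
        (if Dj b d ∧ Dj a b ∧ Dj a d then x ^ (n + m + l) else 0) := by
    rw [sum_comm (s := L)]
    refine sum_congr rfl fun b _ => ?_
    rw [sum_comm (s := L)]
  rw [e2]
  refine sum_congr rfl fun l _ => ?_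
  rw [mul_comm, ← nsmul_eq_mul, ← sum_const, sum_filter, sum_product]
  refine sum_congr rfl fun b _ => ?_
  rw [sum_product]

lemma hS_eq (x : ℝ) (K : Finset ℕ) : ∑ w ∈ WS K, x ^ (w.length - 1) =
    ∑ k ∈ K, x ^ k * (Pool.Agent.TH262.UL.a k : ℝ) := by
  rw [sum_WS]
  refine sum_congr rfl fun k _ => ?_
  rw [sum_congr rfl (fun w hw => by rw [len_Wn hw]), sum_const, nsmul_eq_mul, card_Wn, mul_comm]

open scoped Classical in
/-- the number of walks with `l` steps which do not end in `V` -/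
noncomputable def tout (l : ℕ) (V : Finset (ℤ × ℤ)) : ℕ := ((Wn l).filter (fun a => en a ∉ V)).card

lemma ho_eq (x : ℝ) (L : Finset ℕ) (V : Finset (ℤ × ℤ)) :
    ho x L V = ∑ l ∈ L, x ^ l * (tout l V : ℝ) := by
  classical
  unfold ho tout
  rw [sum_filter, sum_WS]
  refine sum_congr rfl fun l _ => ?_
  rw [← sum_filter, sum_congr rfl (fun w hw => by rw [len_Wn (mem_filter.1 hw).1]), sum_const,
    nsmul_eq_mul, mul_comm]

/-- The key inequality. -/
theorem ineq {x : ℝ} (hx : 0 ≤ x) (I J L K1 K2 : Finset ℕ) (V : Finset (ℤ × ℤ))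
    (h1 : ∀ n ∈ I, ∀ l ∈ L, n + l ∈ K1) (h2 : ∀ m ∈ J, ∀ l ∈ L, m + l ∈ K2) :
    ∑ n ∈ I, ∑ m ∈ J, ∑ l ∈ L, x ^ (n + m + l) * (t3 n m l : ℝ) ≤
      √((V.card * ∑ n ∈ I, ∑ m ∈ J, x ^ (n + m) * (t2 n m : ℝ)) *
      ((∑ k ∈ K1, x ^ k * (Pool.Agent.TH262.UL.a k : ℝ)) *
        ∑ k ∈ K2, x ^ k * (Pool.Agent.TH262.UL.a k : ℝ))) +
      (∑ n ∈ I, ∑ m ∈ J, x ^ (n + m) * (t2 n m : ℝ)) * ∑ l ∈ L, x ^ l * (tout l V : ℝ) := by
  have := hT_le hx I J L K1 K2 V h1 h2
  rwa [hT_eq, hX_eq, hS_eq, hS_eq, ho_eq] at this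

end Pool.Agent.H986.TA
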