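import Pool.Agent.H986.TA.Tail

/-!
The main estimate.
-/

set_option autoImplicit false

namespace Pool.Agent.H986.TA

open Finset

open Pool.Agent.TH262.UL (IsSAW a rr Hy p)

lemma xa (k : ℕ) : H981.mu⁻¹ ^ k * (a k : ℝ) = rr k := by
  unfold rr
  rw [inv_pow, div_eq_inv_mul]

lemma near_even {K c C : ℝ} (h : Hy rr K c C) {s e : ℕ} (hs : 2 ≤ s) (hev : Even e)
    (he : (e : ℝ) * Real.log s * (2 * (1 + 5 * K * Real.exp (5 * K))) ≤ √s) :
    1 / 2 * rr s ≤ rr (s + e) ∧ rr (s + e) ≤ 3 / 2 * rr s := by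
  have hK := h.K1
  have hG : 0 < 5 * K * Real.exp (5 * K) := by positivity
  have hs0 : (0 : ℝ) < s := by exact_mod_cast (by omega : 0 < s)
  have hl : 0 ≤ Real.log s := Real.log_nonneg (by exact_mod_cast (by omega : 1 ≤ s))
  have hsq : 0 < √(s : ℝ) := Real.sqrt_pos.2 hs0
  have h0 : 0 ≤ (e : ℝ) * Real.log s := by positivity
  have h1 : (e : ℝ) * Real.log s ≤ √s := by nlinarith
  have h2 := h.near hs hev h1
  have h3 : 5 * K * Real.exp (5 * K) * ((e : ℝ) * Real.log s / √s) ≤ 1 / 2 := by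
    rw [← mul_div_assoc, div_le_iff₀ hsq]
    nlinarith
  have h4 := abs_le.1 (h2.trans h3)
  have hp := h.pos s
  have e1 : rr (s + e) = rr (s + e) / rr s * rr s := by field_simp
  constructor
  · rw [e1]
    nlinarith [h4.1]
  · rw [e1]
    nlinarith [h4.2]

lemma near_any {K c C : ℝ} (h : Hy rr K c C) {s e : ℕ} (hs : 2 ≤ s)
    (he : (e : ℝ) * Real.log s * (2 * (1 + 5 * K * Real.exp (5 * K))) ≤ √s) :
    c / 2 * rr s ≤ rr (s + e) ∧ rr (s + e) ≤ 3 / 2 * C * rr s := by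
  have hK := h.K1
  have hc0 := h.c0
  have hc1 := h.c1
  have hC1 := h.C1
  have hp := h.pos s
  have hl : 0 ≤ Real.log s := Real.log_nonneg (by exact_mod_cast (by omega : 1 ≤ s))
  rcases Nat.even_or_odd e with hev | ⟨j, hj⟩
  · obtain ⟨h1, h2⟩ := near_even h hs hev he
    constructor
    · nlinarith
    · nlinarith
  · subst hj
    have he' : ((2 * j : ℕ) : ℝ) * Real.log s * (2 * (1 + 5 * K * Real.exp (5 * K))) ≤ √s := by
      refine le_trans ?_ he
      have : ((2 * j : ℕ) : ℝ) ≤ ((2 * j + 1 : ℕ) : ℝ) := by exact_mod_cast (by omega)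
      gcongr
    obtain ⟨h1, h2⟩ := near_even h hs (even_two_mul j) he'
    have h3 := h.lo1 (s + 2 * j)
    have h4 := h.up1 (s + 2 * j)
    constructor
    · calc c / 2 * rr s = c * (1 / 2 * rr s) := by ring
        _ ≤ c * rr (s + 2 * j) := mul_le_mul_of_nonneg_left h1 hc0.le
        _ ≤ rr (s + 2 * j + 1) := h3
        _ = _ := by rw [Nat.add_assoc]
    · calc rr (s + (2 * j + 1)) = rr (s + 2 * j + 1) := by rw [Nat.add_assoc]
        _ ≤ C * rr (s + 2 * j) := h4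
        _ ≤ C * (3 / 2 * rr s) := mul_le_mul_of_nonneg_left h2 (by linarith)
        _ = _ := by ring

/-- regularity of the three arms over many steps -/
lemma t3_near {K δ : ℝ} (hK : 0 < K)
    (h : ∀ n m l : ℕ, 2 ≤ n → 0 < (t3 n m l : ℝ) ∧
      (Real.log ((n + m + l : ℕ) : ℝ) ^ 3 ≤ δ * n →
      (1 - K * √(Real.log ((n + m + l : ℕ) : ℝ) ^ 3 / n)) * ((t3 n m l : ℝ) / a n) ≤
        (t3 (n + 2) m l : ℝ) / a (n + 2)))
    {N L n m l : ℕ} {B : ℝ} (hN : 2 ≤ N) (hn : N ≤ n) (hδ : 0 < δ)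
    (hB : Real.log ((n + 2 * L + m + l : ℕ) : ℝ) ≤ B) (hB3 : B ^ 3 ≤ δ * N)
    (hL : K * L * √(B ^ 3 / N) ≤ 1 / 4) (j : ℕ) (hj : j ≤ L) :
    3 / 4 * ((t3 n m l : ℝ) / a n) ≤ (t3 (n + 2 * j) m l : ℝ) / a (n + 2 * j) := by
  have hN0 : (0 : ℝ) < N := by exact_mod_cast (by omega : 0 < N)
  obtain ⟨κ, hκ⟩ : ∃ κ, κ = K * √(B ^ 3 / N) := ⟨_, rfl⟩
  have hκ0 : 0 ≤ κ := by rw [hκ]; positivity
  have hLκ : L * κ ≤ 1 / 4 := by
    rw [hκ]
    calc (L : ℝ) * (K * √(B ^ 3 / N)) = K * L * √(B ^ 3 / N) := by ring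
      _ ≤ _ := hL
  have hB0 : 0 ≤ B := (Real.log_nonneg (by exact_mod_cast (by omega))).trans hB
  have hpos : 0 < (t3 n m l : ℝ) / a n :=
    div_pos (h n m l (by omega)).1 (Pool.Agent.TH262.UL.a_pos n)
  have key : ∀ j : ℕ, j ≤ L → (1 - κ) ^ j * ((t3 n m l : ℝ) / a n) ≤
      (t3 (n + 2 * j) m l : ℝ) / a (n + 2 * j) := by
    intro j
    induction j with
    | zero => intro _; simp
    | succ j ih =>
      intro hj
      have ih' := ih (by omega)
      have hL1 : (1 : ℝ) ≤ L := by exact_mod_cast (by omega : 1 ≤ L)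
      have hκ1 : κ ≤ 1 := by nlinarith
      have hlog : Real.log ((n + 2 * j + m + l : ℕ) : ℝ) ≤ B := by
        refine le_trans (Real.log_le_log ?_ ?_) hB
        · exact_mod_cast (by omega)
        · exact_mod_cast (by omega)
      have hlog0 : 0 ≤ Real.log ((n + 2 * j + m + l : ℕ) : ℝ) :=
        Real.log_nonneg (by exact_mod_cast (by omega))
      have hlog3 : Real.log ((n + 2 * j + m + l : ℕ) : ℝ) ^ 3 ≤ B ^ 3 :=
        pow_le_pow_left₀ hlog0 hlog 3
      have hnN : (N : ℝ) ≤ ((n + 2 * j : ℕ) : ℝ) := by exact_mod_cast (by omega)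
      obtain ⟨h1, h2⟩ := h (n + 2 * j) m l (by omega)
      have h3 := h2 (hlog3.trans (hB3.trans (mul_le_mul_of_nonneg_left hnN hδ.le)))
      have h4 : K * √(Real.log ((n + 2 * j + m + l : ℕ) : ℝ) ^ 3 / ((n + 2 * j : ℕ) : ℝ)) ≤ κ := by
        rw [hκ]
        refine mul_le_mul_of_nonneg_left (Real.sqrt_le_sqrt ?_) hK.le
        exact div_le_div₀ (by positivity) hlog3 hN0 hnN
      have h5 : 0 ≤ (t3 (n + 2 * j) m l : ℝ) / a (n + 2 * j) := by positivity
      rw [show n + 2 * (j + 1) = n + 2 * j + 2 by ring]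
      calc (1 - κ) ^ (j + 1) * ((t3 n m l : ℝ) / a n)
          = (1 - κ) * ((1 - κ) ^ j * ((t3 n m l : ℝ) / a n)) := by rw [pow_succ]; ring
        _ ≤ (1 - κ) * ((t3 (n + 2 * j) m l : ℝ) / a (n + 2 * j)) :=
            mul_le_mul_of_nonneg_left ih' (by linarith)
        _ ≤ (1 - K * √(Real.log ((n + 2 * j + m + l : ℕ) : ℝ) ^ 3 / ((n + 2 * j : ℕ) : ℝ))) *
            ((t3 (n + 2 * j) m l : ℝ) / a (n + 2 * j)) :=
            mul_le_mul_of_nonneg_right (by linarith) h5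
        _ ≤ _ := h3
  refine le_trans ?_ (key j hj)
  refine mul_le_mul_of_nonneg_right ?_ hpos.le
  rcases Nat.eq_zero_or_pos L with hL0 | hL0
  · have : j = 0 := by omega
    rw [this]
    norm_num
  · have hL1 : (1 : ℝ) ≤ L := by exact_mod_cast hL0
    have hκ1 : κ ≤ 1 := by nlinarith
    have h6 := one_add_mul_le_pow (show (-2 : ℝ) ≤ -κ by linarith) j
    have h7 : (j : ℝ) * κ ≤ L * κ := by
      have : (j : ℝ) ≤ L := by exact_mod_cast hj
      exact mul_le_mul_of_nonneg_right this hκ0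
    have e : (1 + -κ) ^ j = (1 - κ) ^ j := by ring
    rw [e] at h6
    linarith

end Pool.Agent.H986.TA
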