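import Pool.Agent.H986.TA.Core

/-!
The main estimate, second part.
-/

set_option autoImplicit false

namespace Pool.Agent.H986.TA

open Finset

open Pool.Agent.TH262.UL (IsSAW a rr Hy p)

/-- the normalised number of three arms -/
noncomputable def tau (n m l : ℕ) : ℝ := H981.mu⁻¹ ^ (n + m + l) * (t3 n m l : ℝ)

lemma tau_nonneg (n m l : ℕ) : 0 ≤ tau n m l := by
  have := H981.mu_pos
  unfold tau
  positivity

lemma tau_swap (n m l : ℕ) : tau n m l = tau m n l := by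
  unfold tau
  rw [t3_swap, Nat.add_comm n m]

lemma tau_eq (n m l : ℕ) :
    tau n m l = rr n * H981.mu⁻¹ ^ (m + l) * ((t3 n m l : ℝ) / a n) := by
  have := Pool.Agent.TH262.UL.a_pos n
  unfold tau
  rw [← xa, Nat.add_assoc, pow_add]
  field_simp

/-- the regularity hypothesis -/
def Rg (K δ : ℝ) : Prop :=
  ∀ n m l : ℕ, 2 ≤ n → 0 < (t3 n m l : ℝ) ∧
      (Real.log ((n + m + l : ℕ) : ℝ) ^ 3 ≤ δ * n →
      (1 - K * √(Real.log ((n + m + l : ℕ) : ℝ) ^ 3 / n)) * ((t3 n m l : ℝ) / a n) ≤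
        (t3 (n + 2) m l : ℝ) / a (n + 2))

/-- the conditions -/
structure Cd (K₀ K δ : ℝ) (N L n m k : ℕ) (B : ℝ) : Prop where
  L1 : 2 ≤ L
  N1 : 8 * L ≤ N
  n1 : N ≤ n
  m1 : N ≤ m
  k1 : N ≤ k
  lg : Real.log ((n + m + k + 16 * L : ℕ) : ℝ) ≤ B
  b1 : 8 * L * B * (2 * (1 + 5 * K₀ * Real.exp (5 * K₀))) ≤ √N
  b3 : B ^ 3 ≤ δ * N
  bL : K * L * √(B ^ 3 / N) ≤ 1 / 4

lemma Cd.b2 {K₀ K δ B : ℝ} {N L n m k : ℕ} (hK : 1 ≤ K₀) (hC : Cd K₀ K δ N L n m k B)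
    {s e : ℕ} (hs : N ≤ 4 * s) (he : e ≤ 4 * L) (hs2 : s ≤ n + m + k + 16 * L) :
    (e : ℝ) * Real.log s * (2 * (1 + 5 * K₀ * Real.exp (5 * K₀))) ≤ √s := by
  have hL1 := hC.L1
  have hN1 := hC.N1
  have hs0 : (1 : ℝ) ≤ s := by exact_mod_cast (by omega : 1 ≤ s)
  have hl : 0 ≤ Real.log s := Real.log_nonneg hs0
  have hlB : Real.log s ≤ B := by
    refine le_trans (Real.log_le_log (by linarith) ?_) hC.lg
    exact_mod_cast hs2
  have he' : (e : ℝ) ≤ 4 * L := by exact_mod_cast he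
  have hB0 : 0 ≤ B := hl.trans hlB
  have h1 : (e : ℝ) * Real.log s ≤ 4 * L * B := by gcongr
  have hG : 0 < 2 * (1 + 5 * K₀ * Real.exp (5 * K₀)) := by positivity
  have h2 : √(N : ℝ) ≤ 2 * √(s : ℝ) := by
    rw [Real.sqrt_le_left (by positivity), mul_pow, Real.sq_sqrt (by positivity)]
    have : (N : ℝ) ≤ 4 * s := by exact_mod_cast hs
    linarith
  calc (e : ℝ) * Real.log s * (2 * (1 + 5 * K₀ * Real.exp (5 * K₀)))
      ≤ 4 * L * B * (2 * (1 + 5 * K₀ * Real.exp (5 * K₀))) :=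
        mul_le_mul_of_nonneg_right h1 hG.le
    _ = 1 / 2 * (8 * L * B * (2 * (1 + 5 * K₀ * Real.exp (5 * K₀)))) := by ring
    _ ≤ 1 / 2 * √N := by linarith [hC.b1]
    _ ≤ √s := by linarith

lemma tau_step {K₀ c C K δ B : ℝ} {N L n m k : ℕ} (hy : Hy rr K₀ c C) (hK : 0 < K) (hδ : 0 < δ)
    (hR : Rg K δ) (hC : Cd K₀ K δ N L n m k B) {m' l : ℕ} (hm' : m' ≤ m + 2 * L)
    (hl : l ≤ 2 * L) {j : ℕ} (hj : j ≤ L) :
    3 * c / 8 * tau n m' l ≤ tau (n + 2 * j) m' l := by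
  have hL1 := hC.L1
  have hN1 := hC.N1
  have hn1 := hC.n1
  have hk1 := hC.k1
  have hmu := H981.mu_pos
  have h1 := t3_near hK hR (N := N) (L := L) (n := n) (m := m') (l := l) (by omega) hn1 hδ
    (le_trans (Real.log_le_log (by exact_mod_cast (by omega)) (by exact_mod_cast (by omega)))
      hC.lg) hC.b3 hC.bL j hj
  have h2 := (near_any hy (s := n) (e := 2 * j) (by omega)
    (hC.b2 hy.K1 (by omega) (by omega) (by omega))).1
  have hc := hy.c0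
  have hr := hy.pos n
  have hr2 := hy.pos (n + 2 * j)
  have h0 : 0 ≤ (t3 n m' l : ℝ) / a n := by positivity
  have h00 : 0 ≤ (t3 (n + 2 * j) m' l : ℝ) / a (n + 2 * j) := by positivity
  rw [tau_eq, tau_eq]
  have hx : 0 ≤ H981.mu⁻¹ ^ (m' + l) := by positivity
  calc 3 * c / 8 * (rr n * H981.mu⁻¹ ^ (m' + l) * ((t3 n m' l : ℝ) / a n))
      = (c / 2 * rr n) * (3 / 4 * ((t3 n m' l : ℝ) / a n)) * H981.mu⁻¹ ^ (m' + l) := by ring
    _ ≤ rr (n + 2 * j) * ((t3 (n + 2 * j) m' l : ℝ) / a (n + 2 * j)) * H981.mu⁻¹ ^ (m' + l) := by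
        gcongr
    _ = _ := by ring

lemma Cd.swap {K₀ K δ B : ℝ} {N L n m k : ℕ} (hC : Cd K₀ K δ N L n m k B) :
    Cd K₀ K δ N L m n k B :=
  ⟨hC.L1, hC.N1, hC.m1, hC.n1, hC.k1, by rw [Nat.add_comm m n]; exact hC.lg, hC.b1, hC.b3, hC.bL⟩

lemma tau_step2 {K₀ c C K δ B : ℝ} {N L n m k : ℕ} (hy : Hy rr K₀ c C) (hK : 0 < K) (hδ : 0 < δ)
    (hR : Rg K δ) (hC : Cd K₀ K δ N L n m k B) {l : ℕ}
    (hl : l ≤ 2 * L) {i j : ℕ} (hi : i ≤ L) (hj : j ≤ L) :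
    (3 * c / 8) ^ 2 * tau n m l ≤ tau (n + 2 * i) (m + 2 * j) l := by
  have hc := hy.c0
  have h1 := tau_step hy hK hδ hR hC (m' := m + 2 * j) (l := l) (by omega) hl hi
  have h2 := tau_step hy hK hδ hR hC.swap (m' := n) (l := l) (by omega) hl hj
  rw [tau_swap m n, tau_swap (m + 2 * j) n] at h2
  calc (3 * c / 8) ^ 2 * tau n m l = 3 * c / 8 * (3 * c / 8 * tau n m l) := by ring
    _ ≤ 3 * c / 8 * tau n (m + 2 * j) l := mul_le_mul_of_nonneg_left h2 (by positivity)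
    _ ≤ _ := h1

/-- the lengths `n`, `n + 2`, …, `n + 2 L - 2` -/
def Ev (n L : ℕ) : Finset ℕ := (range L).image (fun i => n + 2 * i)

lemma sum_Ev (n L : ℕ) (f : ℕ → ℝ) : ∑ k ∈ Ev n L, f k = ∑ i ∈ range L, f (n + 2 * i) := by
  unfold Ev
  rw [sum_image]
  intro i _ j _ h
  have h' : n + 2 * i = n + 2 * j := h
  omega

lemma mem_Ev {n L k : ℕ} : k ∈ Ev n L ↔ ∃ i < L, n + 2 * i = k := by
  unfold Ev
  simp only [mem_image, mem_range]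

/-- `rr l exp (- l^(4/5)) ≤ C / l` -/
lemma small_tail {K₀ c C : ℝ} (hy : Hy rr K₀ c C) : ∃ D : ℝ, 0 < D ∧ ∀ l : ℕ, 2 ≤ l →
    rr l * Real.exp (-(l : ℝ) ^ (4 / 5 : ℝ)) ≤ D / l := by
  refine ⟨Real.exp ((25 * K₀ + 5) ^ 2 / 4), Real.exp_pos _, ?_⟩
  intro l hl
  have hK := hy.K1
  have hl0 : (0 : ℝ) < l := by exact_mod_cast (by omega : 0 < l)
  have hl1 : (1 : ℝ) ≤ l := by exact_mod_cast (by omega : 1 ≤ l)
  obtain ⟨y, hyd⟩ : ∃ y : ℝ, y = (l : ℝ) ^ (1 / 5 : ℝ) := ⟨_, rfl⟩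
  have hy1 : 1 ≤ y := by
    rw [hyd]
    exact Real.one_le_rpow hl1 (by norm_num)
  have e1 : (l : ℝ) ^ (4 / 5 : ℝ) = y ^ 4 := by
    rw [hyd, ← Real.rpow_natCast, ← Real.rpow_mul hl0.le]
    norm_num
  have hlog : Real.log l ≤ 5 * y := by
    have := Real.log_le_rpow_div hl0.le (show (0 : ℝ) < 1 / 5 by norm_num)
    rw [← hyd] at this
    linarith
  have hlog0 : 0 ≤ Real.log l := Real.log_nonneg hl1
  rw [le_div_iff₀ hl0]
  have h1 := hy.up l hl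
  calc rr l * Real.exp (-(l : ℝ) ^ (4 / 5 : ℝ)) * l
      ≤ Real.exp (K₀ * Real.log l ^ 2) * Real.exp (-(l : ℝ) ^ (4 / 5 : ℝ)) * l := by gcongr
    _ = Real.exp (K₀ * Real.log l ^ 2 + -(l : ℝ) ^ (4 / 5 : ℝ) + Real.log l) := by
        rw [Real.exp_add, Real.exp_add, Real.exp_log hl0]
    _ ≤ _ := by
        apply Real.exp_le_exp.2
        rw [e1]
        have h2 : Real.log l ^ 2 ≤ (5 * y) ^ 2 := pow_le_pow_left₀ hlog0 hlog 2
        have h3 : K₀ * Real.log l ^ 2 ≤ K₀ * (5 * y) ^ 2 :=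
          mul_le_mul_of_nonneg_left h2 (by linarith)
        nlinarith [sq_nonneg (y ^ 2 - (25 * K₀ + 5) / 2)]

end Pool.Agent.H986.TA
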