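import Pool.Agent.H986.TA.Core2

/-!
The main estimate, third part.
-/

set_option autoImplicit false

namespace Pool.Agent.H986.TA

open Finset

open Pool.Agent.TH262.UL (IsSAW a rr Hy p)

lemma rr_mul_le (n m : ℕ) : rr (n + m) ≤ rr n * rr m := by
  have h := H981.cr'_mul n m
  have hmu := H981.mu_pos
  unfold rr
  rw [Pool.Agent.TH262.UL.a_eq, Pool.Agent.TH262.UL.a_eq, Pool.Agent.TH262.UL.a_eq, pow_add,
    div_mul_div_comm]
  exact div_le_div_of_nonneg_right h (by positivity)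

/-- the ratio of the numbers of three arms and triples of walks -/
noncomputable def q3 (n m l : ℕ) : ℝ := (t3 n m l : ℝ) / (a n * a m * a l)

theorem core {K₀ c C K δ B c₁ C₁ : ℝ} {N L n m k R : ℕ} (hy : Hy rr K₀ c C) (hK : 0 < K)
    (hδ : 0 < δ) (hR : Rg K δ)
    (ht : ∀ l R : ℕ, 16 ≤ l → (l : ℝ) ^ (1 - c₁ / Real.log (Real.log l)) ≤ R →
      (tout l (box R) : ℝ) ≤ C₁ * Real.exp (-(l : ℝ) ^ (4 / 5 : ℝ)) * a l) (hC₁ : 0 < C₁)
    {D : ℝ} (hD : 0 < D) (hsm : ∀ l : ℕ, 2 ≤ l →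
      rr l * Real.exp (-(l : ℝ) ^ (4 / 5 : ℝ)) ≤ D / l)
    (hC : Cd K₀ K δ N L n m k B) (hL : 16 ≤ L)
    (hRl : ∀ l : ℕ, L ≤ l → l < 2 * L → (l : ℝ) ^ (1 - c₁ / Real.log (Real.log l)) ≤ R) :
    q3 n m k ≤ 2 / c * ((8 / (3 * c)) ^ 2 * (8 * (3 / 2 * C) ^ 2 + 3 / 2 * C * (C₁ * D))) *
      ((R + 1) / L) * √(p rr n m) := by
  have hN1 := hC.N1
  have hn1 := hC.n1
  have hm1 := hC.m1
  have hk1 := hC.k1
  have hmu := H981.mu_pos
  have hc := hy.c0
  have hC1 := hy.C1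
  have hrn := hy.pos n
  have hrm := hy.pos m
  have hrnm := hy.pos (n + m)
  have hL0 : (0 : ℝ) < L := by exact_mod_cast (by omega : 0 < L)
  obtain ⟨D₁, hD₁⟩ : ∃ D₁, D₁ = 3 / 2 * C := ⟨_, rfl⟩
  have hD1 : 1 ≤ D₁ := by linarith
  rw [← hD₁]
  -- the sums
  obtain ⟨Λ, hΛ⟩ : ∃ Λ, Λ = Ico L (2 * L) := ⟨_, rfl⟩
  have mΛ : ∀ l, l ∈ Λ ↔ L ≤ l ∧ l < 2 * L := by
    intro l
    rw [hΛ, mem_Ico]
  have cΛ : Λ.card = L := by rw [hΛ, Nat.card_Ico]; omega
  have mK : ∀ n' : ℕ, ∀ s ∈ Ev n' L, ∀ l ∈ Λ, s + l ∈ Ico n' (n' + 4 * L) := by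
    intro n' s hs l hl
    rw [mem_Ev] at hs
    rw [mΛ] at hl
    obtain ⟨i, hi, rfl⟩ := hs
    rw [mem_Ico]
    omega
  have hin := ineq (x := H981.mu⁻¹) (by positivity) (Ev n L) (Ev m L) Λ _ _ (box R) (mK n) (mK m)
  -- upper bounds
  have hX : ∑ n' ∈ Ev n L, ∑ m' ∈ Ev m L, H981.mu⁻¹ ^ (n' + m') * (t2 n' m' : ℝ) ≤
      (L : ℝ) ^ 2 * (D₁ * rr (n + m)) := by
    rw [sum_Ev]
    calc ∑ i ∈ range L, ∑ m' ∈ Ev m L, H981.mu⁻¹ ^ (n + 2 * i + m') * (t2 (n + 2 * i) m' : ℝ)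
        ≤ ∑ i ∈ range L, ∑ j ∈ range L, D₁ * rr (n + m) := by
          refine sum_le_sum fun i hi => ?_
          rw [sum_Ev]
          refine sum_le_sum fun j hj => ?_
          rw [mem_range] at hi hj
          rw [t2_eq, xa, show n + 2 * i + (m + 2 * j) = n + m + 2 * (i + j) by ring, hD₁]
          exact (near_any hy (s := n + m) (e := 2 * (i + j)) (by omega)
            (hC.b2 hy.K1 (by omega) (by omega) (by omega))).2
      _ = _ := by
          rw [sum_const, sum_const, card_range, nsmul_eq_mul, nsmul_eq_mul]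
          ring
  have hS : ∀ n' : ℕ, N ≤ n' → n' ≤ n + m → ∑ k ∈ Ico n' (n' + 4 * L),
      H981.mu⁻¹ ^ k * (a k : ℝ) ≤ 4 * L * (D₁ * rr n') := by
    intro n' h1 h2
    have h3 : ∀ k ∈ Ico n' (n' + 4 * L), H981.mu⁻¹ ^ k * (a k : ℝ) ≤ D₁ * rr n' := by
      intro k hk
      rw [mem_Ico] at hk
      obtain ⟨i, rfl⟩ := Nat.exists_eq_add_of_le hk.1
      rw [xa, hD₁]
      exact (near_any hy (s := n') (e := i) (by omega)
        (hC.b2 hy.K1 (by omega) (by omega) (by omega))).2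
    have h4 := sum_le_card_nsmul _ _ _ h3
    rw [Nat.card_Ico, nsmul_eq_mul, Nat.add_sub_cancel_left] at h4
    refine h4.trans (le_of_eq ?_)
    push_cast
    ring
  have hO : ∑ l ∈ Λ, H981.mu⁻¹ ^ l * (tout l (box R) : ℝ) ≤ C₁ * D := by
    calc ∑ l ∈ Λ, H981.mu⁻¹ ^ l * (tout l (box R) : ℝ) ≤ ∑ l ∈ Λ, C₁ * D / L := by
          refine sum_le_sum fun l hl => ?_
          rw [mΛ] at hl
          obtain ⟨i, rfl⟩ := Nat.exists_eq_add_of_le hl.1
          have h1 := ht (L + i) R (by omega) (hRl _ (by omega) (by omega))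
          have h2 := hsm (L + i) (by omega)
          have hx : 0 < H981.mu⁻¹ ^ (L + i) := by positivity
          calc H981.mu⁻¹ ^ (L + i) * (tout (L + i) (box R) : ℝ)
              ≤ H981.mu⁻¹ ^ (L + i) *
                (C₁ * Real.exp (-((L + i : ℕ) : ℝ) ^ (4 / 5 : ℝ)) * a (L + i)) :=
                mul_le_mul_of_nonneg_left h1 hx.le
            _ = C₁ * (rr (L + i) * Real.exp (-((L + i : ℕ) : ℝ) ^ (4 / 5 : ℝ))) := by
                rw [← xa]; ring
            _ ≤ C₁ * (D / ((L + i : ℕ) : ℝ)) := mul_le_mul_of_nonneg_left h2 hC₁.le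
            _ ≤ C₁ * (D / L) := by
                refine mul_le_mul_of_nonneg_left ?_ hC₁.le
                refine div_le_div_of_nonneg_left hD.le hL0 ?_
                exact_mod_cast (by omega : L ≤ L + i)
            _ = _ := by ring
      _ = _ := by
          rw [sum_const, cΛ, nsmul_eq_mul]
          field_simp
  -- the lower bound
  obtain ⟨T, hT⟩ : ∃ T, T = ∑ l ∈ Λ, tau n m l := ⟨_, rfl⟩
  have hT0 : 0 ≤ T := by rw [hT]; exact sum_nonneg fun l _ => tau_nonneg _ _ _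
  have hlow : (L : ℝ) ^ 2 * ((3 * c / 8) ^ 2 * T) ≤
      ∑ n' ∈ Ev n L, ∑ m' ∈ Ev m L, ∑ l ∈ Λ, H981.mu⁻¹ ^ (n' + m' + l) * (t3 n' m' l : ℝ) := by
    rw [sum_Ev]
    calc (L : ℝ) ^ 2 * ((3 * c / 8) ^ 2 * T) =
        ∑ i ∈ range L, ∑ j ∈ range L, (3 * c / 8) ^ 2 * T := by
          rw [sum_const, sum_const, card_range, nsmul_eq_mul, nsmul_eq_mul]
          ring
      _ ≤ _ := by
          refine sum_le_sum fun i hi => ?_
          rw [sum_Ev]
          refine sum_le_sum fun j hj => ?_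
          rw [mem_range] at hi hj
          rw [hT, mul_sum]
          refine sum_le_sum fun l hl => ?_
          rw [mΛ] at hl
          exact tau_step2 hy hK hδ hR hC (by omega) hi.le hj.le
  -- together
  obtain ⟨pp, hpp⟩ : ∃ pp, pp = p rr n m := ⟨_, rfl⟩
  have hp0 : 0 < pp := by rw [hpp]; unfold p; positivity
  have hp1 : pp ≤ 1 := by
    rw [hpp]
    unfold p
    rw [div_le_one (by positivity)]
    exact rr_mul_le n m
  have hprr : rr (n + m) = pp * (rr n * rr m) := by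
    rw [hpp]
    unfold p
    field_simp
  have hsp : pp ≤ √pp := by
    rw [Real.le_sqrt hp0.le hp0.le]
    nlinarith
  have hsum : (L : ℝ) ^ 2 * ((3 * c / 8) ^ 2 * T) ≤
      (L : ℝ) ^ 2 * ((R + 1) * (8 * D₁ ^ 2 + D₁ * (C₁ * D)) * (rr n * rr m) * √pp) := by
    refine (hlow.trans hin).trans ?_
    have h1 : √(((box R).card * ∑ n' ∈ Ev n L, ∑ m' ∈ Ev m L,
        H981.mu⁻¹ ^ (n' + m') * (t2 n' m' : ℝ)) *
        ((∑ k ∈ Ico n (n + 4 * L), H981.mu⁻¹ ^ k * (a k : ℝ)) *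
        ∑ k ∈ Ico m (m + 4 * L), H981.mu⁻¹ ^ k * (a k : ℝ))) ≤
        (L : ℝ) ^ 2 * ((R + 1) * (8 * D₁ ^ 2) * (rr n * rr m) * √pp) := by
      rw [Real.sqrt_le_left (by positivity)]
      have h2 : ((box R).card : ℝ) ≤ 4 * (R + 1) ^ 2 := by
        rw [box_card]
        have : (0 : ℝ) ≤ R := Nat.cast_nonneg R
        nlinarith
      have h3 := hS n hn1 (by omega)
      have h4 := hS m hm1 (by omega)
      calc _ ≤ (4 * ((R : ℝ) + 1) ^ 2 * ((L : ℝ) ^ 2 * (D₁ * rr (n + m)))) *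
            ((4 * L * (D₁ * rr n)) * (4 * L * (D₁ * rr m))) := by
            gcongr
        _ = 64 * (((R : ℝ) + 1) ^ 2 * (L : ℝ) ^ 4 * (rr n * rr m) ^ 2 * pp) * D₁ ^ 3 := by
            rw [hprr]; ring
        _ ≤ 64 * (((R : ℝ) + 1) ^ 2 * (L : ℝ) ^ 4 * (rr n * rr m) ^ 2 * pp) * D₁ ^ 4 := by
            have := pow_le_pow_right₀ hD1 (show 3 ≤ 4 by norm_num)
            exact mul_le_mul_of_nonneg_left this (by positivity)
        _ = _ := by
            have := Real.sq_sqrt hp0.le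
            rw [mul_pow, mul_pow, mul_pow, mul_pow, mul_pow, this]
            ring
    have h5 : (∑ n' ∈ Ev n L, ∑ m' ∈ Ev m L, H981.mu⁻¹ ^ (n' + m') * (t2 n' m' : ℝ)) *
        ∑ l ∈ Λ, H981.mu⁻¹ ^ l * (tout l (box R) : ℝ) ≤
        (L : ℝ) ^ 2 * ((R + 1) * (D₁ * (C₁ * D)) * (rr n * rr m) * √pp) := by
      have hx : 0 ≤ ∑ l ∈ Λ, H981.mu⁻¹ ^ l * (tout l (box R) : ℝ) :=
        sum_nonneg fun l _ => by positivity
      calc _ ≤ ((L : ℝ) ^ 2 * (D₁ * rr (n + m))) * (C₁ * D) := by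
            gcongr
        _ = (L : ℝ) ^ 2 * (1 * (D₁ * (C₁ * D)) * (rr n * rr m) * pp) := by rw [hprr]; ring
        _ ≤ _ := by
            have hR0 : (0 : ℝ) ≤ R := Nat.cast_nonneg R
            have : (1 : ℝ) ≤ R + 1 := by linarith
            gcongr
    refine (add_le_add h1 h5).trans (le_of_eq ?_)
    ring
  have hT1 : T ≤ (8 / (3 * c)) ^ 2 * ((R + 1) * (8 * D₁ ^ 2 + D₁ * (C₁ * D)) * (rr n * rr m) *
      √pp) := by
    have h1 := le_of_mul_le_mul_left hsum (by positivity)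
    have h2 := mul_le_mul_of_nonneg_left h1 (show 0 ≤ (8 / (3 * c)) ^ 2 by positivity)
    refine le_trans (le_of_eq ?_) h2
    field_simp
  -- one good length
  obtain ⟨M, hM⟩ : ∃ M, M = (8 / (3 * c)) ^ 2 * ((R + 1) * (8 * D₁ ^ 2 + D₁ * (C₁ * D)) *
      (rr n * rr m) * √pp) := ⟨_, rfl⟩
  obtain ⟨l, hlΛ, hl⟩ : ∃ l ∈ Λ, tau n m l ≤ M / L := by
    by_contra hcon
    push Not at hcon
    have hne : Λ.Nonempty := by
      rw [← card_pos, cΛ]
      omega
    have h1 := sum_lt_sum_of_nonempty hne hcon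
    rw [sum_const, cΛ, nsmul_eq_mul, mul_div_cancel₀ _ hL0.ne', ← hT] at h1
    rw [← hM] at hT1
    linarith
  rw [mΛ] at hlΛ
  have hlk : l + (k - l) = k := by omega
  have hsub := t3_sub n m l (k - l)
  rw [hlk] at hsub
  have hnear := (near_any hy (s := k - l) (e := l) (by omega)
    (hC.b2 hy.K1 (by omega) (by omega) (by omega))).1
  rw [show k - l + l = k by omega] at hnear
  have hrk := hy.pos k
  have hrkl := hy.pos (k - l)
  have han := Pool.Agent.TH262.UL.a_pos n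
  have ham := Pool.Agent.TH262.UL.a_pos m
  have hak := Pool.Agent.TH262.UL.a_pos k
  have hsub' : (t3 n m k : ℝ) ≤ t3 n m l * a (k - l) := by exact_mod_cast hsub
  have e1 : (t3 n m l : ℝ) * a (k - l) / (a n * a m * a k) =
      tau n m l * rr (k - l) / (rr n * rr m * rr k) := by
    unfold tau rr
    have e2 : H981.mu ^ k = H981.mu ^ l * H981.mu ^ (k - l) := by rw [← pow_add, hlk]
    rw [e2, inv_pow, pow_add, pow_add]
    field_simp
  have h9 : rr (k - l) ≤ 2 / c * rr k := by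
    rw [div_mul_eq_mul_div, le_div_iff₀ hc]
    linarith
  have htn := tau_nonneg n m l
  have hML : 0 ≤ M / L := htn.trans hl
  unfold q3
  calc (t3 n m k : ℝ) / (a n * a m * a k)
      ≤ (t3 n m l : ℝ) * a (k - l) / (a n * a m * a k) :=
        div_le_div_of_nonneg_right hsub' (by positivity)
    _ = tau n m l * rr (k - l) / (rr n * rr m * rr k) := e1
    _ ≤ (M / L) * (2 / c * rr k) / (rr n * rr m * rr k) := by
        gcongr
    _ = 2 / c * ((8 / (3 * c)) ^ 2 * (8 * D₁ ^ 2 + D₁ * (C₁ * D))) * ((R + 1) / L) * √pp := by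
        rw [hM]
        field_simp
    _ = _ := by rw [hpp]

end Pool.Agent.H986.TA
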