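import Pool.Agent.H986.TA.Good

/-!
Three arms: the final estimates.
-/

set_option autoImplicit false

namespace Pool.Agent.H986.TA

open Finset

open Pool.Agent.TH262.UL (IsSAW a rr Hy p)

/-- the rate -/
noncomputable def rate (c : ℝ) (N : ℕ) : ℝ := (N : ℝ) ^ (-(c / Real.log (Real.log N)))

lemma log16 : Real.exp 1 ≤ Real.log 16 := by
  have h2 := Real.log_two_gt_d9
  have h3 : Real.log 16 = 4 * Real.log 2 := by
    rw [show (16 : ℝ) = 2 ^ 4 by norm_num, Real.log_pow]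
    norm_num
  have h5 := Real.exp_one_lt_d9
  linarith

lemma log_ge {N : ℕ} (hN : 16 ≤ N) : Real.exp 1 ≤ Real.log N :=
  log16.trans (Real.log_le_log (by norm_num) (by exact_mod_cast hN))

lemma loglog_ge {N : ℕ} (hN : 16 ≤ N) : 1 ≤ Real.log (Real.log N) := by
  have := Real.log_le_log (Real.exp_pos 1) (log_ge hN)
  rwa [Real.log_exp] at this

lemma rate_eq {c : ℝ} {N : ℕ} (hN : 16 ≤ N) :
    rate c N = Real.exp (-(c * (Real.log N / Real.log (Real.log N)))) := by
  have hN0 : (0 : ℝ) < N := by exact_mod_cast (by omega : 0 < N)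
  unfold rate
  rw [Real.rpow_def_of_pos hN0]
  congr 1
  ring

lemma rate_pos {c : ℝ} {N : ℕ} (hN : 16 ≤ N) : 0 < rate c N := by
  rw [rate_eq hN]
  exact Real.exp_pos _

lemma rate_anti {c : ℝ} (hc : 0 ≤ c) {N M : ℕ} (hN : 16 ≤ N) (hM : N ≤ M) :
    rate c M ≤ rate c N := by
  rw [rate_eq hN, rate_eq (hN.trans hM)]
  apply Real.exp_le_exp.2
  apply neg_le_neg
  refine mul_le_mul_of_nonneg_left ?_ hc
  have h1 := log_ge hN
  have hN0 : (0 : ℝ) < N := by exact_mod_cast (by omega : 0 < N)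
  have h2 : Real.log N ≤ Real.log M := Real.log_le_log hN0 (by exact_mod_cast hM)
  have h3 := Real.log_div_self_antitoneOn (show Real.log N ∈ {x | Real.exp 1 ≤ x} from h1)
    (show Real.log M ∈ {x | Real.exp 1 ≤ x} from h1.trans h2) h2
  simp only at h3
  have l1 := loglog_ge hN
  have l2 := loglog_ge (hN.trans hM)
  have e1 := Real.exp_pos 1
  have p1 : 0 < Real.log N := e1.trans_le h1
  have p2 : 0 < Real.log M := p1.trans_le h2
  rw [div_le_div_iff₀ (by linarith) (by linarith)]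
  rw [div_le_div_iff₀ p2 p1] at h3
  linarith

theorem three_large : ∃ c' A : ℝ, ∃ N₀ : ℕ, 0 < c' ∧ 0 < A ∧ ∀ N : ℕ, N₀ ≤ N → 16 ≤ N →
    ∀ n m k : ℕ, N ≤ n → N ≤ m → N ≤ k → (n : ℝ) ≤ N + Real.exp ((N : ℝ) ^ (1 / 10 : ℝ)) →
      (m : ℝ) ≤ N + Real.exp ((N : ℝ) ^ (1 / 10 : ℝ)) →
      (k : ℝ) ≤ N + Real.exp ((N : ℝ) ^ (1 / 10 : ℝ)) →
      q3 n m k ≤ A * rate c' N * √(p rr n m) := by
  obtain ⟨K₀, c, C, hy⟩ := Pool.Agent.TH262.UL.hy
  obtain ⟨K, δ, hK, hδ, hR⟩ := t3_reg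
  obtain ⟨c₁, C₁, hc₁, hC₁, ht⟩ := tail
  obtain ⟨D, hD, hsm⟩ := small_tail hy
  have hK1 := hy.K1
  have hc := hy.c0
  have hC1 := hy.C1
  obtain ⟨G, hG⟩ : ∃ G, G = 2 * (1 + 5 * K₀ * Real.exp (5 * K₀)) := ⟨_, rfl⟩
  have hG0 : 0 < G := by rw [hG]; positivity
  obtain ⟨Y, hY⟩ : ∃ Y, Y = max (48 * G) (max (27 / δ) (max (48 * K) 16)) := ⟨_, rfl⟩
  have hyinf : Filter.Tendsto (fun N : ℕ => (N : ℝ) ^ (1 / 60 : ℝ)) Filter.atTop Filter.atTop :=
    (tendsto_rpow_atTop (by norm_num)).comp tendsto_natCast_atTop_atTop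
  have hllinf : Filter.Tendsto (fun N : ℕ => Real.log (Real.log N)) Filter.atTop Filter.atTop :=
    Real.tendsto_log_atTop.comp (Real.tendsto_log_atTop.comp tendsto_natCast_atTop_atTop)
  obtain ⟨N₀, hN₀⟩ := Filter.eventually_atTop.1
    ((hyinf.eventually_ge_atTop Y).and (hllinf.eventually_ge_atTop c₁))
  refine ⟨c₁ / 3, 2 / c * ((8 / (3 * c)) ^ 2 * (8 * (3 / 2 * C) ^ 2 + 3 / 2 * C * (C₁ * D))) * 6,
    N₀, by positivity, by positivity, ?_⟩
  intro N hNN hN16 n m k hn hm hk hn' hm' hk'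
  obtain ⟨hyY, hllc⟩ := hN₀ N hNN
  have hN0 : (0 : ℝ) < N := by exact_mod_cast (by omega : 0 < N)
  obtain ⟨y, hyd⟩ : ∃ y : ℝ, y = (N : ℝ) ^ (1 / 60 : ℝ) := ⟨_, rfl⟩
  rw [← hyd] at hyY
  have hy1 : 48 * G ≤ y := (le_max_left _ _).trans (hY ▸ hyY)
  have hy2 : 27 / δ ≤ y := ((le_max_left _ _).trans (le_max_right _ _)).trans (hY ▸ hyY)
  have hy3 : 48 * K ≤ y :=
    ((le_max_left _ _).trans ((le_max_right _ _).trans (le_max_right _ _))).trans (hY ▸ hyY)
  have hy4 : 16 ≤ y :=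
    ((le_max_right _ _).trans ((le_max_right _ _).trans (le_max_right _ _))).trans (hY ▸ hyY)
  have hy0 : 0 < y := by linarith
  have hpw : ∀ j : ℕ, ∀ r : ℝ, r = (j : ℝ) / 60 → (N : ℝ) ^ r = y ^ j := by
    intro j r hr
    rw [hyd, ← Real.rpow_natCast, ← Real.rpow_mul hN0.le, hr]
    congr 1
    ring
  have eN : (N : ℝ) = y ^ 60 := by
    have := hpw 60 1 (by norm_num)
    rwa [Real.rpow_one] at this
  have eN10 : (N : ℝ) ^ (1 / 10 : ℝ) = y ^ 6 := hpw 6 _ (by norm_num)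
  have eN2 : √(N : ℝ) = y ^ 30 := by
    rw [Real.sqrt_eq_rpow]
    exact hpw 30 _ (by norm_num)
  have hy1' : 1 ≤ y := by linarith
  have hp4 : y ≤ y ^ 4 := le_self_pow₀ hy1' (by norm_num)
  have hp42 : y ≤ y ^ 42 := le_self_pow₀ hy1' (by norm_num)
  have hp40 : 16 ≤ y ^ 40 := hy4.trans (le_self_pow₀ hy1' (by norm_num))
  have hp20 : 16 ≤ y ^ 20 := hy4.trans (le_self_pow₀ hy1' (by norm_num))
  -- the parameters
  obtain ⟨L, hL⟩ : ∃ L, L = ⌈y ^ 20⌉₊ := ⟨_, rfl⟩
  have hL1 : y ^ 20 ≤ L := by rw [hL]; exact Nat.le_ceil _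
  have hL2 : (L : ℝ) ≤ 2 * y ^ 20 := by
    have := Nat.ceil_lt_add_one (show 0 ≤ y ^ 20 by positivity)
    rw [← hL] at this
    linarith
  have hL16 : 16 ≤ L := by
    have : (16 : ℝ) ≤ L := hp20.trans hL1
    exact_mod_cast this
  have hLN : 8 * L ≤ N := by
    have : (8 : ℝ) * L ≤ N := by
      rw [eN]
      calc (8 : ℝ) * L ≤ 8 * (2 * y ^ 20) := by linarith
        _ = 16 * y ^ 20 := by ring
        _ ≤ y ^ 40 * y ^ 20 := mul_le_mul_of_nonneg_right hp40 (by positivity)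
        _ = y ^ 60 := by ring
    exact_mod_cast this
  have hlg : Real.log ((n + m + k + 16 * L : ℕ) : ℝ) ≤ 3 * y ^ 6 := by
    rw [Real.log_le_iff_le_exp (by exact_mod_cast (by omega))]
    rw [eN10] at hn' hm' hk'
    obtain ⟨e, he⟩ : ∃ e, e = Real.exp (y ^ 6) := ⟨_, rfl⟩
    have he3 : Real.exp (3 * y ^ 6) = e ^ 3 := by
      rw [he, ← Real.exp_nat_mul]
      norm_num
    rw [he3]
    rw [← he] at hn' hm' hk'
    have h6 : 16 ≤ y ^ 6 := hy4.trans (le_self_pow₀ hy1' (by norm_num))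
    have h7 : y ^ 60 ≤ 3628800 * e := by
      have := Real.pow_div_factorial_le_exp (y ^ 6) (by positivity) 10
      rw [← he, div_le_iff₀ (by positivity), ← pow_mul] at this
      have h8 : ((Nat.factorial 10 : ℕ) : ℝ) = 3628800 := by norm_num [Nat.factorial]
      rw [h8, show 6 * 10 = 60 by norm_num] at this
      linarith
    have h9 : 16777216 ≤ y ^ 6 := by
      calc (16777216 : ℝ) = 16 ^ 6 := by norm_num
        _ ≤ y ^ 6 := pow_le_pow_left₀ (by norm_num) hy4 6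
    have h10 : 16777216 ≤ e := by
      have := Real.add_one_le_exp (y ^ 6)
      rw [← he] at this
      linarith
    have h11 : y ^ 20 ≤ y ^ 60 := pow_le_pow_right₀ hy1' (by norm_num)
    push_cast
    calc (n : ℝ) + m + k + 16 * L ≤ 3 * (y ^ 60 + e) + 32 * y ^ 60 := by
          rw [eN] at hn' hm' hk'
          linarith
      _ ≤ 35 * (3628800 * e) + 3 * e := by linarith
      _ ≤ 16777216 * 16777216 * e := by nlinarith
      _ ≤ e * e * e := by gcongr
      _ = e ^ 3 := by ring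
  have hCd : Cd K₀ K δ N L n m k (3 * y ^ 6) := by
    refine ⟨by omega, hLN, hn, hm, hk, hlg, ?_, ?_, ?_⟩
    · rw [← hG, eN2]
      calc 8 * (L : ℝ) * (3 * y ^ 6) * G ≤ 8 * (2 * y ^ 20) * (3 * y ^ 6) * G := by gcongr
        _ = (48 * G) * y ^ 26 := by ring
        _ ≤ y ^ 4 * y ^ 26 := mul_le_mul_of_nonneg_right (hy1.trans hp4) (by positivity)
        _ = y ^ 30 := by ring
    · rw [eN]
      rw [div_le_iff₀ hδ] at hy2
      calc (3 * y ^ 6) ^ 3 = 27 * y ^ 18 := by ring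
        _ ≤ (y * δ) * y ^ 18 := mul_le_mul_of_nonneg_right hy2 (by positivity)
        _ ≤ (y ^ 42 * δ) * y ^ 18 := by gcongr
        _ = δ * y ^ 60 := by ring
    · have h1 : √((3 * y ^ 6) ^ 3 / N) ≤ 6 / y ^ 21 := by
        rw [Real.sqrt_le_left (by positivity), eN, div_pow, div_le_div_iff₀ (by positivity)
          (by positivity)]
        have : 0 ≤ y ^ 60 := by positivity
        nlinarith
      calc K * (L : ℝ) * √((3 * y ^ 6) ^ 3 / N) ≤ K * (2 * y ^ 20) * (6 / y ^ 21) := by gcongr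
        _ = 12 * K / y := by field_simp; ring
        _ ≤ 1 / 4 := by
            rw [div_le_iff₀ hy0]
            linarith
  -- the radius
  obtain ⟨E, hE⟩ : ∃ E, E = rate (c₁ / 3) N := ⟨_, rfl⟩
  have hE0 : 0 < E := by rw [hE]; exact rate_pos hN16
  obtain ⟨R, hRd⟩ : ∃ R, R = ⌈4 * y ^ 20 * E⌉₊ := ⟨_, rfl⟩
  have hR1 : 4 * y ^ 20 * E ≤ R := by rw [hRd]; exact Nat.le_ceil _
  have hR2 : (R : ℝ) ≤ 4 * y ^ 20 * E + 1 := by
    have := Nat.ceil_lt_add_one (show 0 ≤ 4 * y ^ 20 * E by positivity)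
    rw [← hRd] at this
    exact this.le
  have hlogN : Real.log N = 60 * Real.log y := by rw [eN, Real.log_pow]; norm_num
  have hll := loglog_ge hN16
  have hRl : ∀ l : ℕ, L ≤ l → l < 2 * L → (l : ℝ) ^ (1 - c₁ / Real.log (Real.log l)) ≤ R := by
    intro l h1 h2
    refine le_trans ?_ hR1
    have hl16 : 16 ≤ l := hL16.trans h1
    have hl0 : (0 : ℝ) < l := by exact_mod_cast (by omega : 0 < l)
    have hlL : (l : ℝ) ≤ 4 * y ^ 20 := by
      have : (l : ℝ) ≤ 2 * L := by exact_mod_cast h2.le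
      linarith
    have hlly := loglog_ge hl16
    have hlogl : 1 / 3 * Real.log N ≤ Real.log l := by
      have h3 : Real.log (y ^ 20) ≤ Real.log l :=
        Real.log_le_log (by positivity) (hL1.trans (by exact_mod_cast h1))
      rw [Real.log_pow] at h3
      rw [hlogN]
      push_cast at h3
      linarith
    have hlogl0 : 0 < Real.log l := (Real.exp_pos 1).trans_le (log_ge hl16)
    have hlogle : Real.log (Real.log l) ≤ Real.log (Real.log N) :=
      Real.log_le_log hlogl0 (Real.log_le_log hl0 (by exact_mod_cast (by omega : l ≤ N)))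
    rw [Real.rpow_sub hl0, Real.rpow_one, div_eq_mul_inv, ← Real.rpow_neg hl0.le]
    have h4 : (l : ℝ) ^ (-(c₁ / Real.log (Real.log l))) ≤ E := by
      rw [hE, rate_eq hN16, Real.rpow_def_of_pos hl0]
      apply Real.exp_le_exp.2
      have h5 : c₁ / 3 * (Real.log N / Real.log (Real.log N)) ≤
          Real.log l * (c₁ / Real.log (Real.log l)) := by
        calc c₁ / 3 * (Real.log N / Real.log (Real.log N))
            = (1 / 3 * Real.log N) * (c₁ / Real.log (Real.log N)) := by ring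
          _ ≤ Real.log l * (c₁ / Real.log (Real.log l)) := by
              have : c₁ / Real.log (Real.log N) ≤ c₁ / Real.log (Real.log l) :=
                div_le_div_of_nonneg_left hc₁.le (by linarith) hlogle
              have h6 : 0 ≤ c₁ / Real.log (Real.log N) := by positivity
              exact mul_le_mul hlogl this h6 hlogl0.le
      linarith
    exact mul_le_mul hlL h4 (by positivity) (by positivity)
  have hmain := core hy hK hδ hR ht hC₁ hD hsm hCd hL16 hRl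
  refine hmain.trans ?_
  have hfin : ((R : ℝ) + 1) / L ≤ 6 * E := by
    have hL0 : (0 : ℝ) < L := by linarith
    rw [div_le_iff₀ hL0]
    have hEy : 1 ≤ E * y ^ 20 := by
      have h1 : y ^ 20 = Real.exp (1 / 3 * Real.log N) := by
        rw [hlogN, show 1 / 3 * (60 * Real.log y) = ((20 : ℕ) : ℝ) * Real.log y by push_cast; ring,
          Real.exp_nat_mul, Real.exp_log hy0]
      rw [hE, rate_eq hN16, h1, ← Real.exp_add]
      apply Real.one_le_exp
      have h2 : c₁ / 3 * (Real.log N / Real.log (Real.log N)) ≤ 1 / 3 * Real.log N := by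
        have h3 : 0 < Real.log N := (Real.exp_pos 1).trans_le (log_ge hN16)
        have h4 : c₁ * (Real.log N / Real.log (Real.log N)) ≤ Real.log N := by
          rw [← mul_div_assoc, div_le_iff₀ (by linarith), mul_comm]
          exact mul_le_mul_of_nonneg_left hllc h3.le
        linarith
      linarith
    calc (R : ℝ) + 1 ≤ 4 * y ^ 20 * E + 2 := by linarith
      _ ≤ 6 * E * y ^ 20 := by linarith
      _ ≤ 6 * E * L := by gcongr
  have hpre : 0 ≤ 2 / c * ((8 / (3 * c)) ^ 2 * (8 * (3 / 2 * C) ^ 2 + 3 / 2 * C * (C₁ * D))) := by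
    positivity
  calc _ ≤ 2 / c * ((8 / (3 * c)) ^ 2 * (8 * (3 / 2 * C) ^ 2 + 3 / 2 * C * (C₁ * D))) * (6 * E) *
        √(p rr n m) := by gcongr
    _ = _ := by rw [hE]; ring

end Pool.Agent.H986.TA
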