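import Pool.Agent.H986.TA.Lst
import Pool.Graph.R_seed8.TH262.UL.Inst

/-!
Walks as functions and as lists of sites.
-/

set_option autoImplicit false

namespace Pool.Agent.H986.TA

open Pool.Agent.TH262.UL (IsSAW)

lemma isW_ofFn {n : ℕ} {w : Fin (n + 1) → ℤ × ℤ} : IsSAW n w ↔ IsW (List.ofFn w) := by
  constructor
  · rintro ⟨h0, hs, hi⟩
    refine ⟨?_, ?_, List.nodup_ofFn.2 hi⟩
    · rw [List.ofFn_succ, List.head?_cons, h0]
      rfl
    · rw [List.isChain_iff_getElem]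
      intro i hi'
      rw [List.getElem_ofFn, List.getElem_ofFn]
      have hlt : i < n := by
        rw [List.length_ofFn] at hi'
        omega
      exact hs ⟨i, hlt⟩
  · rintro ⟨h0, hs, hi⟩
    refine ⟨?_, ?_, List.nodup_ofFn.1 hi⟩
    · rw [List.ofFn_succ, List.head?_cons] at h0
      exact Option.some.inj h0
    · intro i
      rw [List.isChain_iff_getElem] at hs
      have h2 := hs i.1 (by rw [List.length_ofFn]; omega)
      rw [List.getElem_ofFn, List.getElem_ofFn] at h2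
      exact h2

/-- the walks with `n` steps -/
def WL (n : ℕ) : Set (List (ℤ × ℤ)) := {l | IsW l ∧ l.length = n + 1}

lemma ofFn_mem {n : ℕ} {w : Fin (n + 1) → ℤ × ℤ} (h : IsSAW n w) : List.ofFn w ∈ WL n :=
  ⟨isW_ofFn.1 h, by simp⟩

/-- functions and lists -/
noncomputable def eqv (n : ℕ) : {w : Fin (n + 1) → ℤ × ℤ // IsSAW n w} ≃ WL n :=
  Equiv.ofBijective (fun w => ⟨List.ofFn w.1, ofFn_mem w.2⟩) (by
    constructor
    · intro w w' h
      exact Subtype.ext (List.ofFn_injective (Subtype.ext_iff.1 h))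
    · rintro ⟨l, hl, hlen⟩
      have e : List.ofFn (fun i : Fin (n + 1) => l.get (Fin.cast hlen.symm i)) = l := by
        apply List.ext_getElem
        · simp [hlen]
        · intro i h1 h2
          rw [List.getElem_ofFn]
          rfl
      refine ⟨⟨fun i : Fin (n + 1) => l.get (Fin.cast hlen.symm i), ?_⟩, Subtype.ext e⟩
      rw [isW_ofFn, e]
      exact hl)

lemma eqv_val {n : ℕ} (w : {w : Fin (n + 1) → ℤ × ℤ // IsSAW n w}) :
    ((eqv n w : WL n) : List (ℤ × ℤ)) = List.ofFn w.1 := rfl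

instance (n : ℕ) : Finite {w : Fin (n + 1) → ℤ × ℤ // IsSAW n w} := by
  have h := Pool.Agent.TH262.UL.a_pos n
  have h2 : 0 < Nat.card {w : Fin (n + 1) → ℤ × ℤ // IsSAW n w} := by exact_mod_cast h
  exact (Nat.card_pos_iff.1 h2).2

lemma WL_fin (n : ℕ) : (WL n).Finite := by
  have : Finite (WL n) := Finite.of_equiv _ (eqv n)
  exact Set.toFinite _

/-- the walks with `n` steps -/
noncomputable def Wn (n : ℕ) : Finset (List (ℤ × ℤ)) := (WL_fin n).toFinset

lemma mem_Wn {n : ℕ} {l : List (ℤ × ℤ)} : l ∈ Wn n ↔ IsW l ∧ l.length = n + 1 := by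
  unfold Wn
  rw [Set.Finite.mem_toFinset]
  rfl

lemma card_Wn (n : ℕ) : (Wn n).card = Pool.Agent.TH262.UL.a n := by
  unfold Pool.Agent.TH262.UL.a
  rw [Nat.card_congr (eqv n)]
  unfold Wn
  rw [← Set.ncard_eq_toFinset_card _ (WL_fin n)]
  exact (Nat.card_coe_set_eq (WL n)).symm

lemma dj_ofFn {n m : ℕ} {w : Fin (n + 1) → ℤ × ℤ} {w' : Fin (m + 1) → ℤ × ℤ} :
    Dj (List.ofFn w) (List.ofFn w') ↔ ∀ i j, w i = w' j → w i = 0 := by
  unfold Dj
  constructor
  · intro h i j hij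
    exact h (w i) (List.mem_ofFn.2 ⟨i, rfl⟩) (List.mem_ofFn.2 ⟨j, hij.symm⟩)
  · intro h x hx hx'
    obtain ⟨i, rfl⟩ := List.mem_ofFn.1 hx
    obtain ⟨j, hj⟩ := List.mem_ofFn.1 hx'
    exact h i j hj.symm

lemma en_ofFn {n : ℕ} (w : Fin (n + 1) → ℤ × ℤ) : en (List.ofFn w) = w (Fin.last n) := by
  unfold en
  rw [List.getLastD_eq_getLast?]
  rw [List.getLast?_eq_getElem?, List.length_ofFn, List.getElem?_ofFn]
  have : n + 1 - 1 < n + 1 := by omega
  rw [dif_pos this]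
  rfl

/-- walks with a number of steps in `I` -/
noncomputable def WS (I : Finset ℕ) : Finset (List (ℤ × ℤ)) := I.biUnion Wn

lemma mem_WS {I : Finset ℕ} {l : List (ℤ × ℤ)} : l ∈ WS I ↔ IsW l ∧ l.length - 1 ∈ I := by
  unfold WS
  rw [Finset.mem_biUnion]
  constructor
  · rintro ⟨n, hn, hl⟩
    rw [mem_Wn] at hl
    refine ⟨hl.1, ?_⟩
    rw [hl.2]
    simpa using hn
  · rintro ⟨h1, h2⟩
    refine ⟨_, h2, mem_Wn.2 ⟨h1, ?_⟩⟩
    obtain ⟨t, rfl⟩ := h1.eq
    simp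

lemma sum_WS (I : Finset ℕ) (f : List (ℤ × ℤ) → ℝ) :
    ∑ l ∈ WS I, f l = ∑ n ∈ I, ∑ l ∈ Wn n, f l := by
  unfold WS
  rw [Finset.sum_biUnion]
  intro n _ m _ hnm
  rw [Function.onFun, Finset.disjoint_left]
  intro l h1 h2
  rw [mem_Wn] at h1 h2
  apply hnm
  have := h1.2.symm.trans h2.2
  omega

end Pool.Agent.H986.TA
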