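import Pool.Agent.H986.TA.Core3

/-!
Goodman's inequality for three walks, and its consequences.
-/

set_option autoImplicit false

namespace Pool.Agent.H986.TA

open Finset

open Pool.Agent.TH262.UL (IsSAW a rr Hy p)

lemma t3_le (n m l : ℕ) : t3 n m l ≤ a n * (a m * a l) := by
  classical
  unfold t3
  refine (card_filter_le _ _).trans ?_
  rw [card_product, card_product, card_Wn, card_Wn, card_Wn]

lemma q3_le_one (n m l : ℕ) : q3 n m l ≤ 1 := by
  have h1 := Pool.Agent.TH262.UL.a_pos n
  have h2 := Pool.Agent.TH262.UL.a_pos m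
  have h3 := Pool.Agent.TH262.UL.a_pos l
  unfold q3
  rw [div_le_one (by positivity)]
  have := t3_le n m l
  rw [← mul_assoc] at this
  exact_mod_cast this

lemma p_eq (n m : ℕ) : p rr n m = (t2 n m : ℝ) / (a n * a m) := by
  rw [t2_eq]
  have hmu := H981.mu_pos
  have h1 := Pool.Agent.TH262.UL.a_pos n
  have h2 := Pool.Agent.TH262.UL.a_pos m
  unfold p rr
  rw [pow_add]
  field_simp

theorem goodman (n : ℕ) : p rr n n * (2 * p rr n n - 1) ≤ q3 n n n := by
  classical
  have ha := Pool.Agent.TH262.UL.a_pos n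
  -- degrees
  let dg : List (ℤ × ℤ) → ℝ := fun b => (((Wn n).filter (fun a => Dj a b)).card : ℝ)
  have hsum : ∑ b ∈ Wn n, dg b = (t2 n n : ℝ) := by
    unfold t2
    rw [card_filter, sum_product]
    push_cast
    refine sum_congr rfl fun b _ => ?_
    simp only [dg]
    rw [card_filter]
    push_cast
    refine sum_congr rfl fun d _ => ?_
    by_cases h : Dj b d
    · rw [if_pos h, if_pos h.symm]
    · rw [if_neg h, if_neg (fun h' => h h'.symm)]
  have hcs : (t2 n n : ℝ) ^ 2 ≤ a n * ∑ b ∈ Wn n, dg b ^ 2 := by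
    have := sq_sum_le_card_mul_sum_sq (s := Wn n) (f := dg)
    rw [hsum, card_Wn] at this
    exact this
  -- three arms
  have h3 : 2 * ∑ b ∈ Wn n, dg b ^ 2 - a n * (t2 n n : ℝ) ≤ (t3 n n n : ℝ) := by
    have e1 : (t3 n n n : ℝ) = ∑ b ∈ Wn n, ∑ d ∈ Wn n, if Dj b d then
        (((Wn n).filter (fun a => Dj a b ∧ Dj a d)).card : ℝ) else 0 := by
      unfold t3
      rw [card_filter, sum_product]
      push_cast
      refine sum_congr rfl fun b _ => ?_
      rw [sum_product]
      refine sum_congr rfl fun d _ => ?_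
      by_cases h : Dj b d
      · rw [if_pos h, card_filter]
        push_cast
        refine sum_congr rfl fun a _ => ?_
        by_cases h2 : Dj a b ∧ Dj a d
        · rw [if_pos h2, if_pos ⟨h, h2⟩]
        · rw [if_neg h2, if_neg (fun h4 => h2 h4.2)]
      · rw [if_neg h]
        refine sum_eq_zero fun a _ => ?_
        rw [if_neg (fun h4 => h h4.1)]
    have e2 : 2 * ∑ b ∈ Wn n, dg b ^ 2 - a n * (t2 n n : ℝ) =
        ∑ b ∈ Wn n, ∑ d ∈ Wn n, if Dj b d then dg b + dg d - a n else 0 := by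
      have f1 : ∑ b ∈ Wn n, ∑ d ∈ Wn n, (if Dj b d then dg b else 0) =
          ∑ b ∈ Wn n, dg b ^ 2 := by
        refine sum_congr rfl fun b _ => ?_
        rw [← sum_filter, sum_const, nsmul_eq_mul, sq]
        congr 2
        congr 1
        ext d
        simp only [mem_filter]
        exact ⟨fun h => ⟨h.1, h.2.symm⟩, fun h => ⟨h.1, h.2.symm⟩⟩
      have f2 : ∑ b ∈ Wn n, ∑ d ∈ Wn n, (if Dj b d then dg d else 0) =
          ∑ b ∈ Wn n, dg b ^ 2 := by
        rw [sum_comm]
        refine sum_congr rfl fun b _ => ?_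
        rw [← sum_filter, sum_const, nsmul_eq_mul, sq]
      have f3 : ∑ b ∈ Wn n, ∑ d ∈ Wn n, (if Dj b d then (a n : ℝ) else 0) = a n * (t2 n n : ℝ) := by
        rw [← hsum, mul_sum]
        refine sum_congr rfl fun b _ => ?_
        rw [← sum_filter, sum_const, nsmul_eq_mul, mul_comm]
        congr 2
        congr 1
        ext d
        simp only [mem_filter]
        exact ⟨fun h => ⟨h.1, h.2.symm⟩, fun h => ⟨h.1, h.2.symm⟩⟩
      rw [← f3, two_mul]
      nth_rewrite 1 [← f1]
      rw [← f2, ← sum_add_distrib, ← sum_sub_distrib]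
      refine sum_congr rfl fun b _ => ?_
      rw [← sum_add_distrib, ← sum_sub_distrib]
      refine sum_congr rfl fun d _ => ?_
      by_cases h : Dj b d
      · simp only [if_pos h]
      · simp only [if_neg h]
        ring
    rw [e1, e2]
    refine sum_le_sum fun b _ => sum_le_sum fun d _ => ?_
    by_cases h : Dj b d
    · rw [if_pos h, if_pos h]
      have h4 := card_union_add_card_inter ((Wn n).filter (fun a => Dj a b))
        ((Wn n).filter (fun a => Dj a d))
      rw [← filter_and] at h4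
      have h5 : (((Wn n).filter (fun a => Dj a b)) ∪ ((Wn n).filter (fun a => Dj a d))).card ≤
          a n := by
        rw [← card_Wn]
        exact card_le_card (union_subset (filter_subset _ _) (filter_subset _ _))
      have h6 : ((((Wn n).filter (fun a => Dj a b)) ∪
          ((Wn n).filter (fun a => Dj a d))).card : ℝ) ≤ a n := by exact_mod_cast h5
      have h7 : ((((Wn n).filter (fun a => Dj a b)) ∪
          ((Wn n).filter (fun a => Dj a d))).card : ℝ) +
          (((Wn n).filter (fun a => Dj a b ∧ Dj a d)).card : ℝ) = dg b + dg d := by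
        have h8 := congrArg (Nat.cast : ℕ → ℝ) h4
        rw [Nat.cast_add, Nat.cast_add] at h8
        exact h8
      linarith
    · rw [if_neg h, if_neg h]
  rw [p_eq]
  unfold q3
  obtain ⟨A, hA⟩ : ∃ A : ℝ, A = a n := ⟨_, rfl⟩
  obtain ⟨T, hT⟩ : ∃ T : ℝ, T = t2 n n := ⟨_, rfl⟩
  rw [← hA] at ha hcs h3 ⊢
  rw [← hT] at hcs h3 ⊢
  have h8 : T * (2 * T - A ^ 2) ≤ A * (t3 n n n : ℝ) := by nlinarith
  have e3 : T / (A * A) * (2 * (T / (A * A)) - 1) = T * (2 * T - A ^ 2) / A ^ 4 := by
    field_simp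
  have e4 : (t3 n n n : ℝ) / (A * A * A) = A * (t3 n n n : ℝ) / A ^ 4 := by
    field_simp
  rw [e3, e4]
  exact div_le_div_of_nonneg_right h8 (by positivity)

/-- from the three arms to two arms -/
theorem two_of_three {n : ℕ} {ε : ℝ} (hε : 0 ≤ ε) (h : q3 n n n ≤ ε) :
    p rr n n ≤ 1 / 2 + ε := by
  have h1 := (goodman n).trans h
  by_contra hcon
  push Not at hcon
  nlinarith

/-- from two arms to the number of walks -/
theorem rr_ge {K₀ c C : ℝ} (hy : Hy rr K₀ c C) {n : ℕ} {β : ℝ} (hβ : 0 < β)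
    (h : ∀ j : ℕ, p rr (2 ^ j * n) (2 ^ j * n) ≤ β) : 1 / β ≤ rr n := by
  by_contra hcon
  push Not at hcon
  have hs0 : β * rr n < 1 := by
    rw [lt_div_iff₀ hβ] at hcon
    linarith
  have hs00 : 0 ≤ β * rr n := by
    have := hy.pos n
    positivity
  have key : ∀ j : ℕ, β * rr (2 ^ j * n) ≤ (β * rr n) ^ (2 ^ j) := by
    intro j
    induction j with
    | zero => simp
    | succ j ih =>
      have h1 := h j
      have hp := hy.pos (2 ^ j * n)
      unfold p at h1
      rw [div_le_iff₀ (by positivity)] at h1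
      have e : 2 ^ (j + 1) * n = 2 ^ j * n + 2 ^ j * n := by ring
      rw [e]
      calc β * rr (2 ^ j * n + 2 ^ j * n) ≤ β * (β * (rr (2 ^ j * n) * rr (2 ^ j * n))) :=
            mul_le_mul_of_nonneg_left h1 hβ.le
        _ = (β * rr (2 ^ j * n)) ^ 2 := by ring
        _ ≤ ((β * rr n) ^ (2 ^ j)) ^ 2 := pow_le_pow_left₀ (by positivity) ih 2
        _ = _ := by rw [← pow_mul, pow_succ]
  have hlim : Filter.Tendsto (fun j : ℕ => (β * rr n) ^ (2 ^ j)) Filter.atTop (nhds 0) :=
    (tendsto_pow_atTop_nhds_zero_of_lt_one hs00 hs0).comp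
      (tendsto_pow_atTop_atTop_of_one_lt (r := 2) (by norm_num))
  have h2 : ∀ j : ℕ, β ≤ (β * rr n) ^ (2 ^ j) := by
    intro j
    have h3 := hy.one (2 ^ j * n)
    calc β = β * 1 := (mul_one β).symm
      _ ≤ β * rr (2 ^ j * n) := mul_le_mul_of_nonneg_left h3 hβ.le
      _ ≤ _ := key j
  have h4 := ge_of_tendsto' hlim h2
  linarith

end Pool.Agent.H986.TA
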