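import Pool.Agent.H986.TA.Fn

/-!
The key inequality for three arms.
-/

set_option autoImplicit false

namespace Pool.Agent.H986.TA

open Finset

open scoped Classical in
/-- the weight of the arms `a` with a number of steps in `L`, which end at `y` and avoid `b`, `d` -/
noncomputable def hh (x : ℝ) (L : Finset ℕ) (b d : List (ℤ × ℤ)) (y : ℤ × ℤ) : ℝ :=
  ∑ a ∈ (WS L).filter (fun a => en a = y ∧ Dj a b ∧ Dj a d), x ^ (a.length - 1)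

open scoped Classical in
/-- pairs of walks which do not meet -/
noncomputable def prs (I J : Finset ℕ) : Finset (List (ℤ × ℤ) × List (ℤ × ℤ)) :=
  (WS I ×ˢ WS J).filter (fun q => Dj q.1 q.2)

lemma mem_prs {I J : Finset ℕ} {q : List (ℤ × ℤ) × List (ℤ × ℤ)} :
    q ∈ prs I J ↔ (q.1 ∈ WS I ∧ q.2 ∈ WS J) ∧ Dj q.1 q.2 := by
  simp only [prs, mem_filter, mem_product]

theorem key {x : ℝ} (hx : 0 ≤ x) (I J L K1 K2 : Finset ℕ) (V : Finset (ℤ × ℤ))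
    (h1 : ∀ n ∈ I, ∀ l ∈ L, n + l ∈ K1) (h2 : ∀ m ∈ J, ∀ l ∈ L, m + l ∈ K2) :
    ∑ q ∈ prs I J ×ˢ V, x ^ (q.1.1.length - 1) * x ^ (q.1.2.length - 1) *
        hh x L q.1.1 q.1.2 q.2 ^ 2 ≤
      (∑ w ∈ WS K1, x ^ (w.length - 1)) * ∑ w ∈ WS K2, x ^ (w.length - 1) := by
  classical
  -- the tuples
  obtain ⟨S, hSd⟩ : ∃ S : Finset (((List (ℤ × ℤ) × List (ℤ × ℤ)) × (ℤ × ℤ)) ×
      (List (ℤ × ℤ) × List (ℤ × ℤ))), S =
    ((prs I J ×ˢ V) ×ˢ (WS L ×ˢ WS L)).filter (fun t =>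
      (en t.2.1 = t.1.2 ∧ Dj t.2.1 t.1.1.1 ∧ Dj t.2.1 t.1.1.2) ∧
      (en t.2.2 = t.1.2 ∧ Dj t.2.2 t.1.1.1 ∧ Dj t.2.2 t.1.1.2)) := ⟨_, rfl⟩
  let φ : ((List (ℤ × ℤ) × List (ℤ × ℤ)) × (ℤ × ℤ)) × (List (ℤ × ℤ) × List (ℤ × ℤ)) →
      List (ℤ × ℤ) × List (ℤ × ℤ) := fun t => (F t.2.1 t.1.1.1, F t.2.2 t.1.1.2)
  let g : List (ℤ × ℤ) × List (ℤ × ℤ) → ℝ := fun u => x ^ (u.1.length - 1) * x ^ (u.2.length - 1)
  have hS : ∀ t ∈ S, IsW t.1.1.1 ∧ IsW t.1.1.2 ∧ IsW t.2.1 ∧ IsW t.2.2 ∧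
      t.1.1.1.length - 1 ∈ I ∧ t.1.1.2.length - 1 ∈ J ∧ t.2.1.length - 1 ∈ L ∧
      t.2.2.length - 1 ∈ L ∧ Dj t.1.1.1 t.1.1.2 ∧
      (en t.2.1 = t.1.2 ∧ Dj t.2.1 t.1.1.1 ∧ Dj t.2.1 t.1.1.2) ∧
      (en t.2.2 = t.1.2 ∧ Dj t.2.2 t.1.1.1 ∧ Dj t.2.2 t.1.1.2) := by
    intro t ht
    rw [hSd, mem_filter, mem_product, mem_product, mem_product, mem_prs, mem_WS, mem_WS, mem_WS,
      mem_WS] at ht
    obtain ⟨⟨⟨⟨⟨⟨a1, a2⟩, a3, a4⟩, a5⟩, a6⟩, ⟨a7, a8⟩, a9, a10⟩, a11, a12⟩ := ht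
    exact ⟨a1, a3, a7, a9, a2, a4, a8, a10, a5, a11, a12⟩
  have e1 : ∑ q ∈ prs I J ×ˢ V, x ^ (q.1.1.length - 1) * x ^ (q.1.2.length - 1) *
        hh x L q.1.1 q.1.2 q.2 ^ 2 = ∑ t ∈ S, g (φ t) := by
    conv_rhs => rw [hSd, sum_filter, sum_product]
    refine sum_congr rfl fun q hq => ?_
    unfold hh
    rw [sum_filter, sq, sum_mul_sum, mul_sum, sum_product]
    refine sum_congr rfl fun a ha => ?_
    rw [mul_sum]
    refine sum_congr rfl fun a' ha' => ?_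
    rw [mem_product, mem_prs, mem_WS, mem_WS] at hq
    obtain ⟨⟨⟨⟨q1, -⟩, q2, -⟩, -⟩, -⟩ := hq
    obtain ⟨t1, ht1⟩ := q1.eq
    obtain ⟨t2, ht2⟩ := q2.eq
    obtain ⟨t3, ht3⟩ := (mem_WS.1 ha).1.eq
    obtain ⟨t4, ht4⟩ := (mem_WS.1 ha').1.eq
    have l1 := F_len (a := a) q1
    have l2 := F_len (a := a') q2
    have r1 : x ^ ((F a q.1.1).length - 1) = x ^ (q.1.1.length - 1) * x ^ (a.length - 1) := by
      rw [← pow_add]
      congr 1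
      rw [ht1, ht3] at l1 ⊢
      simp only [List.length_cons] at l1 ⊢
      omega
    have r2 : x ^ ((F a' q.1.2).length - 1) = x ^ (q.1.2.length - 1) * x ^ (a'.length - 1) := by
      rw [← pow_add]
      congr 1
      rw [ht2, ht4] at l2 ⊢
      simp only [List.length_cons] at l2 ⊢
      omega
    simp only [g, φ]
    by_cases c1 : en a = q.2 ∧ Dj a q.1.1 ∧ Dj a q.1.2
    · by_cases c2 : en a' = q.2 ∧ Dj a' q.1.1 ∧ Dj a' q.1.2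
      · rw [if_pos c1, if_pos c2, if_pos ⟨c1, c2⟩, r1, r2]
        ring
      · have c3 : ¬ ((en a = q.2 ∧ Dj a q.1.1 ∧ Dj a q.1.2) ∧
            en a' = q.2 ∧ Dj a' q.1.1 ∧ Dj a' q.1.2) := fun h => c2 h.2
        rw [if_neg c2, if_neg c3]
        ring
    · have c3 : ¬ ((en a = q.2 ∧ Dj a q.1.1 ∧ Dj a q.1.2) ∧
          en a' = q.2 ∧ Dj a' q.1.1 ∧ Dj a' q.1.2) := fun h => c1 h.1
      rw [if_neg c1, if_neg c3]
      ring
  rw [e1]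
  have inj : Set.InjOn φ (S : Set _) := by
    intro t ht t' ht' h
    obtain ⟨a1, a2, a3, a4, -, -, -, -, a5, ⟨a6, a7, a8⟩, a9, a10, a11⟩ := hS t ht
    obtain ⟨b1, b2, b3, b4, -, -, -, -, b5, ⟨b6, b7, b8⟩, b9, b10, b11⟩ := hS t' ht'
    have h' := Prod.ext_iff.1 h
    obtain ⟨r1, r2, r3, r4⟩ := F_inj a3 a1 a4 a2 b3 b1 b4 b2 (a6.trans a9.symm)
      (b6.trans b9.symm) a10 a5 a11 b10 b5 h'.1 h'.2
    refine Prod.ext (Prod.ext (Prod.ext r2 r4) ?_) (Prod.ext r1 r3)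
    rw [← a6, ← b6, r1]
  rw [← sum_image (f := g) inj, sum_mul_sum, ← sum_product']
  refine sum_le_sum_of_subset_of_nonneg ?_ (fun u _ _ => by positivity)
  intro u hu
  obtain ⟨t, ht, rfl⟩ := mem_image.1 hu
  obtain ⟨a1, a2, a3, a4, c1, c2, c3, c4, a5, ⟨a6, a7, a8⟩, a9, a10, a11⟩ := hS t ht
  rw [mem_product, mem_WS, mem_WS]
  obtain ⟨t1, ht1⟩ := a1.eq
  obtain ⟨t2, ht2⟩ := a2.eq
  obtain ⟨t3, ht3⟩ := a3.eq
  obtain ⟨t4, ht4⟩ := a4.eq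
  have l1 := F_len (a := t.2.1) a1
  have l2 := F_len (a := t.2.2) a2
  refine ⟨⟨F_isW a3 a1 a7, ?_⟩, F_isW a4 a2 a11, ?_⟩
  · have h3 := h1 _ c1 _ c3
    have e : (F t.2.1 t.1.1.1).length - 1 = t.1.1.1.length - 1 + (t.2.1.length - 1) := by
      rw [ht1, ht3] at l1 ⊢
      simp only [List.length_cons] at l1 ⊢
      omega
    show (F t.2.1 t.1.1.1).length - 1 ∈ K1
    rw [e]
    exact h3
  · have h3 := h2 _ c2 _ c4
    have e : (F t.2.2 t.1.1.2).length - 1 = t.1.1.2.length - 1 + (t.2.2.length - 1) := by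
      rw [ht2, ht4] at l2 ⊢
      simp only [List.length_cons] at l2 ⊢
      omega
    show (F t.2.2 t.1.1.2).length - 1 ∈ K2
    rw [e]
    exact h3

/-- with the Cauchy-Schwarz inequality -/
theorem key_cs {x : ℝ} (hx : 0 ≤ x) (I J L K1 K2 : Finset ℕ) (V : Finset (ℤ × ℤ))
    (h1 : ∀ n ∈ I, ∀ l ∈ L, n + l ∈ K1) (h2 : ∀ m ∈ J, ∀ l ∈ L, m + l ∈ K2) :
    (∑ q ∈ prs I J ×ˢ V, x ^ (q.1.1.length - 1) * x ^ (q.1.2.length - 1) *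
        hh x L q.1.1 q.1.2 q.2) ^ 2 ≤
      ((V.card : ℝ) * ∑ q ∈ prs I J, x ^ (q.1.length - 1) * x ^ (q.2.length - 1)) *
        ((∑ w ∈ WS K1, x ^ (w.length - 1)) * ∑ w ∈ WS K2, x ^ (w.length - 1)) := by
  have hk := key hx I J L K1 K2 V h1 h2
  have hcs := sum_sq_le_sum_mul_sum_of_sq_le_mul (prs I J ×ˢ V)
    (r := fun q => x ^ (q.1.1.length - 1) * x ^ (q.1.2.length - 1) * hh x L q.1.1 q.1.2 q.2)
    (f := fun q => x ^ (q.1.1.length - 1) * x ^ (q.1.2.length - 1))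
    (g := fun q => x ^ (q.1.1.length - 1) * x ^ (q.1.2.length - 1) *
        hh x L q.1.1 q.1.2 q.2 ^ 2) (fun q _ => by positivity) (fun q _ => by positivity)
    (fun q _ => le_of_eq (by ring))
  refine hcs.trans ?_
  have e : ∑ q ∈ prs I J ×ˢ V, x ^ (q.1.1.length - 1) * x ^ (q.1.2.length - 1) =
      (V.card : ℝ) * ∑ q ∈ prs I J, x ^ (q.1.length - 1) * x ^ (q.2.length - 1) := by
    rw [sum_product, mul_sum]
    refine sum_congr rfl fun q _ => ?_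
    simp only [sum_const, nsmul_eq_mul]
  rw [e]
  have h0 : 0 ≤ ∑ q ∈ prs I J, x ^ (q.1.length - 1) * x ^ (q.2.length - 1) :=
    sum_nonneg fun q _ => by positivity
  exact mul_le_mul_of_nonneg_left hk (by positivity)

end Pool.Agent.H986.TA
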