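import Pool.Agent.H986.TA.Str

/-!
Facts about the numbers of pairs and of three arms.
-/

set_option autoImplicit false

namespace Pool.Agent.H986.TA

open Finset

open Pool.Agent.TH262.UL (IsSAW a rr)

lemma IsSAW.dj_iff {n m : ℕ} {w : Fin (n + 1) → ℤ × ℤ} {w' : Fin (m + 1) → ℤ × ℤ}
    (h : IsSAW n w) : (∀ i j, w i = w' j → w i = 0) ↔ Pool.Agent.TH262.UL.Disj w w' := by
  unfold Pool.Agent.TH262.UL.Disj
  constructor
  · intro h1 i j hi hij
    have h2 := h1 i j hij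
    exact hi (h.2.2 (h2.trans h.1.symm))
  · intro h1 i j hij
    by_cases hi : i = 0
    · rw [hi]
      exact h.1
    · exact absurd hij (h1 i j hi)

theorem t2_eq (n m : ℕ) : t2 n m = a (n + m) := by
  classical
  rw [← Pool.Agent.TH262.UL.card_pairs]
  unfold t2
  rw [← Set.ncard_coe_finset, ← Nat.card_coe_set_eq]
  symm
  refine Nat.card_congr (Equiv.ofBijective (fun q => ⟨(List.ofFn q.1.1, List.ofFn q.1.2), ?_⟩)
    ⟨?_, ?_⟩)
  · obtain ⟨q, h1, h2, h3⟩ := q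
    rw [mem_coe, mem_filter, mem_product]
    exact ⟨⟨ofFn_Wn h1, ofFn_Wn h2⟩, dj_ofFn.2 ((IsSAW.dj_iff h1).2 h3)⟩
  · intro q q' h
    simp only [Subtype.mk.injEq, Prod.mk.injEq] at h
    exact Subtype.ext (Prod.ext (List.ofFn_injective h.1) (List.ofFn_injective h.2))
  · rintro ⟨⟨b, d⟩, hq⟩
    rw [mem_coe, mem_filter, mem_product] at hq
    obtain ⟨⟨hb, hd⟩, c1⟩ := hq
    obtain ⟨w, hw, rfl⟩ := ofFn_surj hb
    obtain ⟨u, hu, rfl⟩ := ofFn_surj hd
    exact ⟨⟨(w, u), hw, hu, (IsSAW.dj_iff hw).1 (dj_ofFn.1 c1)⟩, rfl⟩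

theorem t3_swap (n m l : ℕ) : t3 n m l = t3 m n l := by
  classical
  unfold t3
  refine card_bij' (fun q _ => (q.2.1, q.1, q.2.2)) (fun q _ => (q.2.1, q.1, q.2.2)) ?_ ?_ ?_ ?_
  · intro q hq
    rw [mem_filter, mem_product, mem_product] at hq ⊢
    obtain ⟨⟨h1, h2, h3⟩, h4, h5, h6⟩ := hq
    exact ⟨⟨h2, h1, h3⟩, h4.symm, h6, h5⟩
  · intro q hq
    rw [mem_filter, mem_product, mem_product] at hq ⊢
    obtain ⟨⟨h1, h2, h3⟩, h4, h5, h6⟩ := hq
    exact ⟨⟨h2, h1, h3⟩, h4.symm, h6, h5⟩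
  · intro q _
    rfl
  · intro q _
    rfl

/-- the initial part and the rest of a walk -/
lemma cut {l k : ℕ} {w : List (ℤ × ℤ)} (hw : w ∈ Wn (l + k)) :
    w.take (l + 1) ∈ Wn l ∧ (w.drop l).map (fun p => p - en (w.take (l + 1))) ∈ Wn k := by
  rw [mem_Wn] at hw ⊢
  obtain ⟨h1, h2⟩ := hw
  have hlt : l < w.length := by omega
  have hen : en (w.take (l + 1)) = w[l] := by
    unfold en
    rw [List.getLastD_eq_getLast?, List.getLast?_eq_getElem?]
    rw [List.length_take, min_eq_left (by omega), Nat.add_sub_cancel,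
      List.getElem?_take_of_lt (by omega), List.getElem?_eq_getElem hlt]
    rfl
  have hdrop : w.drop l = w[l] :: w.drop (l + 1) := List.drop_eq_getElem_cons hlt
  refine ⟨⟨⟨?_, ?_, ?_⟩, ?_⟩, ?_⟩
  · rw [List.head?_take]
    simp [h1.hd]
  · exact h1.ch.take _
  · exact h1.nd.sublist (List.take_sublist _ _)
  · rw [List.length_take]
    omega
  · rw [mem_Wn]
    refine ⟨⟨?_, ?_, ?_⟩, ?_⟩
    · rw [List.head?_map, hdrop, List.head?_cons, hen]
      simp
    · rw [List.isChain_map]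
      exact (h1.ch.drop l).imp fun _ _ h => h.sub _
    · exact (h1.nd.sublist (List.drop_sublist _ _)).map fun p q h => by simpa using h
    · rw [List.length_map, List.length_drop]
      omega

theorem t3_sub (n m l k : ℕ) : t3 n m (l + k) ≤ t3 n m l * a k := by
  classical
  rw [← card_Wn]
  unfold t3
  rw [← card_product]
  refine card_le_card_of_injOn (fun q => ((q.1, q.2.1, q.2.2.take (l + 1)),
    (q.2.2.drop l).map (fun p => p - en (q.2.2.take (l + 1))))) ?_ ?_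
  · intro q hq
    rw [mem_coe, mem_filter, mem_product, mem_product] at hq
    obtain ⟨⟨h1, h2, h3⟩, h4, h5, h6⟩ := hq
    obtain ⟨c1, c2⟩ := cut h3
    rw [mem_coe, mem_product, mem_filter, mem_product, mem_product]
    refine ⟨⟨⟨h1, h2, c1⟩, h4, ?_, ?_⟩, c2⟩
    · exact fun x hx => h5 x (List.mem_of_mem_take hx)
    · exact fun x hx => h6 x (List.mem_of_mem_take hx)
  · intro q hq q' hq' h
    simp only [Prod.mk.injEq] at h
    obtain ⟨⟨e1, e2, e3⟩, e4⟩ := h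
    rw [e3] at e4
    have e5 := List.map_injective_iff.2 (sub_left_injective (b := en (q'.2.2.take (l + 1)))) e4
    refine Prod.ext e1 (Prod.ext e2 ?_)
    have e6 : q.2.2.take l = q'.2.2.take l := by
      have := congrArg (List.take l) e3
      rwa [List.take_take, List.take_take, min_eq_left (by omega)] at this
    rw [← List.take_append_drop l q.2.2, ← List.take_append_drop l q'.2.2, e5, e6]

/-- positivity and regularity in the length of the first arm -/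
theorem t3_reg : ∃ K δ : ℝ, 0 < K ∧ 0 < δ ∧ ∀ n m l : ℕ, 2 ≤ n →
    0 < (t3 n m l : ℝ) ∧
    (Real.log ((n + m + l : ℕ) : ℝ) ^ 3 ≤ δ * n →
      (1 - K * √(Real.log ((n + m + l : ℕ) : ℝ) ^ 3 / n)) * ((t3 n m l : ℝ) / a n) ≤
        (t3 (n + 2) m l : ℝ) / a (n + 2)) := by
  obtain ⟨K, δ, hδ, h⟩ := Pool.Agent.Results.MP_8c6f77_pr.Stars.result
  refine ⟨max K 1, δ, lt_max_of_lt_right one_pos, hδ, ?_⟩
  intro n m l hn
  obtain ⟨h1, h2, -⟩ := h n ![m, l, 0] hn
  have htot : Pool.Agent.Results.MP_8c6f77_pr.Stars.total n ![m, l, 0] = n + m + l := rfl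
  rw [htot] at h1 h2
  have hP : ∀ k, Pool.Agent.Results.MP_8c6f77_pr.Stars.P k ![m, l, 0] =
      (t3 k m l : ℝ) / (a k * ∏ i, Q219.SAW.Std.c Q219.SAW.Std.sqSteps
        ((![m, l, 0] : Fin 3 → ℕ) i)) := by
    intro k
    unfold Pool.Agent.Results.MP_8c6f77_pr.Stars.P
    rw [stars_card, c_eq]
  have hprod := Pool.Agent.Results.MP_8c6f77_pr.Stars.prod_pos' ![m, l, 0]
  obtain ⟨Q, hQ⟩ : ∃ Q, Q = ∏ i, Q219.SAW.Std.c Q219.SAW.Std.sqSteps
        ((![m, l, 0] : Fin 3 → ℕ) i) := ⟨_, rfl⟩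
  rw [← hQ] at hprod
  simp only [hP, ← hQ] at h1 h2
  have ha := Pool.Agent.TH262.UL.a_pos n
  have ha2 := Pool.Agent.TH262.UL.a_pos (n + 2)
  have hp : 0 < (t3 n m l : ℝ) / (a n * Q) := (Real.exp_pos _).trans_le h1
  have hpos : 0 < (t3 n m l : ℝ) := by
    rw [div_pos_iff] at hp
    rcases hp with hp | hp
    · exact hp.1
    · exact absurd hp.2 (not_lt.2 (by positivity))
  refine ⟨hpos, fun hl => ?_⟩
  have h3 := (abs_le.1 (h2 hl)).1
  have e : (t3 (n + 2) m l : ℝ) / (a (n + 2) * Q) / ((t3 n m l : ℝ) / (a n * Q)) =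
      (t3 (n + 2) m l : ℝ) / a (n + 2) / ((t3 n m l : ℝ) / a n) := by
    field_simp
  rw [e] at h3
  have hq : 0 < (t3 n m l : ℝ) / a n := by positivity
  rw [← le_div_iff₀ hq]
  have h4 : K * √(Real.log ((n + m + l : ℕ) : ℝ) ^ 3 / n) ≤
      max K 1 * √(Real.log ((n + m + l : ℕ) : ℝ) ^ 3 / n) :=
    mul_le_mul_of_nonneg_right (le_max_left _ _) (Real.sqrt_nonneg _)
  linarith

end Pool.Agent.H986.TA
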