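import Pool.Agent.H986.TA.Cnt
import Pool.Graph.R_pool_sql_team_seeded_2aa45f1a.Results.MP_8c6f77_pr.Stars

/-!
The library's stars with one trivial arm are the three arms.
-/

set_option autoImplicit false

namespace Pool.Agent.H986.TA

open Finset

open Pool.Agent.TH262.UL (IsSAW)

open Q219.SAW.Std (sqSteps)

lemma mem_sqSteps (v : ℤ × ℤ) : v ∈ sqSteps ↔ |v.1| + |v.2| = 1 := by
  unfold sqSteps
  obtain ⟨x, y⟩ := v
  simp only [Set.mem_insert_iff, Set.mem_singleton_iff, Prod.mk.injEq]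
  constructor
  · rintro (⟨rfl, rfl⟩ | ⟨rfl, rfl⟩ | ⟨rfl, rfl⟩ | ⟨rfl, rfl⟩) <;> simp
  · intro h
    rcases abs_cases x with ⟨h1, h2⟩ | ⟨h1, h2⟩ <;> rcases abs_cases y with ⟨h3, h4⟩ | ⟨h3, h4⟩ <;>
      rw [h1, h3] at h <;> omega

lemma saw_iff {n : ℕ} {w : Fin (n + 1) → ℤ × ℤ} :
    Q219.SAW.Std.IsSAW sqSteps n w ↔ IsSAW n w := by
  unfold Q219.SAW.Std.IsSAW Pool.Agent.TH262.UL.IsSAW
  simp only [mem_sqSteps, Prod.fst_sub, Prod.snd_sub]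
  rfl

lemma c_eq (n : ℕ) : Q219.SAW.Std.c sqSteps n = (Pool.Agent.TH262.UL.a n : ℝ) := by
  unfold Q219.SAW.Std.c Pool.Agent.TH262.UL.a
  have : {ω | Q219.SAW.Std.IsSAW sqSteps n ω} = {ω | IsSAW n ω} := by
    ext w
    exact saw_iff
  rw [this]
  rfl

/-- the arms of a star -/
def mk3 {m l : ℕ} (u : Fin (m + 1) → ℤ × ℤ) (v : Fin (l + 1) → ℤ × ℤ) :
    Pool.Agent.Results.MP_8c6f77_pr.Stars.Arms ![m, l, 0] := fun i =>
  match i with
  | ⟨0, _⟩ => u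
  | ⟨1, _⟩ => v
  | ⟨2, _⟩ => fun _ => 0

lemma ofFn_surj {n : ℕ} {l : List (ℤ × ℤ)} (h : l ∈ Wn n) :
    ∃ w : Fin (n + 1) → ℤ × ℤ, IsSAW n w ∧ List.ofFn w = l := by
  have h1 : l ∈ WL n := mem_Wn.1 h
  obtain ⟨w, hw⟩ := (eqv n).surjective ⟨l, h1⟩
  exact ⟨w.1, w.2, by rw [← eqv_val, hw]⟩

lemma ofFn_Wn {n : ℕ} {w : Fin (n + 1) → ℤ × ℤ} (h : IsSAW n w) : List.ofFn w ∈ Wn n :=
  mem_Wn.2 (ofFn_mem h)

theorem stars_card (n m l : ℕ) :
    (Pool.Agent.Results.MP_8c6f77_pr.Stars.stars n ![m, l, 0]).ncard = t3 n m l := by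
  classical
  unfold t3
  rw [← Set.ncard_coe_finset]
  refine Set.ncard_congr (fun p _ => (List.ofFn p.1, List.ofFn (p.2 0), List.ofFn (p.2 1)))
    ?_ ?_ ?_
  · rintro ⟨w, u⟩ ⟨h1, h2, h3, h4⟩
    have a0 : IsSAW m (u 0) := saw_iff.1 (h2 0)
    have a1 : IsSAW l (u 1) := saw_iff.1 (h2 1)
    rw [mem_coe, mem_filter, mem_product, mem_product]
    refine ⟨⟨ofFn_Wn (saw_iff.1 h1), ofFn_Wn a0, ofFn_Wn a1⟩, ?_, ?_, ?_⟩
    · exact dj_ofFn.2 fun i j hij => h3 0 i j hij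
    · exact dj_ofFn.2 fun i j hij => by
        have := h3 1 j i hij.symm
        exact hij.trans this
    · exact dj_ofFn.2 fun i j hij => h4 1 0 i j (by decide) hij
  · rintro ⟨w, u⟩ ⟨w', u'⟩ ⟨h1, h2, h3, h4⟩ ⟨h1', h2', h3', h4'⟩ h
    simp only [Prod.mk.injEq] at h
    refine Prod.ext (List.ofFn_injective h.1) ?_
    funext i
    match i with
    | ⟨0, _⟩ => exact List.ofFn_injective h.2.1
    | ⟨1, _⟩ => exact List.ofFn_injective h.2.2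
    | ⟨2, _⟩ =>
      funext j
      have hj : j = 0 := by
        apply Fin.ext
        have : j.1 < 0 + 1 := j.2
        simp only [Fin.val_zero]
        omega
      rw [hj]
      exact (h2 2).1.trans (h2' 2).1.symm
  · rintro ⟨b, d, a⟩ hq
    rw [mem_coe, mem_filter, mem_product, mem_product] at hq
    obtain ⟨⟨hb, hd, ha⟩, c1, c2, c3⟩ := hq
    obtain ⟨w, hw, rfl⟩ := ofFn_surj hb
    obtain ⟨u, hu, rfl⟩ := ofFn_surj hd
    obtain ⟨v, hv, rfl⟩ := ofFn_surj ha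
    have c1' := dj_ofFn.1 c1
    have c2' := dj_ofFn.1 c2
    have c3' := dj_ofFn.1 c3
    refine ⟨(w, mk3 u v), ⟨saw_iff.2 hw, ?_, ?_, ?_⟩, rfl⟩
    · intro i
      match i with
      | ⟨0, _⟩ => exact saw_iff.2 hu
      | ⟨1, _⟩ => exact saw_iff.2 hv
      | ⟨2, _⟩ =>
        refine ⟨rfl, fun i => i.elim0, ?_⟩
        intro j j' _
        apply Fin.ext
        have h1 : j.1 < 0 + 1 := j.2
        have h2 : j'.1 < 0 + 1 := j'.2
        omega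
    · intro i j k h
      match i with
      | ⟨0, _⟩ => exact c1' j k h
      | ⟨1, _⟩ =>
        have := c2' k j h.symm
        exact h.trans this
      | ⟨2, _⟩ => exact h
    · intro i i' k k' hii h
      match i, i' with
      | ⟨0, _⟩, ⟨0, _⟩ => exact absurd rfl hii
      | ⟨1, _⟩, ⟨1, _⟩ => exact absurd rfl hii
      | ⟨2, _⟩, _ => rfl
      | ⟨0, _⟩, ⟨1, _⟩ =>
        have h' := c3' k' k h.symm
        exact h.trans h'
      | ⟨1, _⟩, ⟨0, _⟩ => exact c3' k k' h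
      | ⟨0, _⟩, ⟨2, _⟩ => exact h
      | ⟨1, _⟩, ⟨2, _⟩ => exact h

end Pool.Agent.H986.TA
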