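import Pool.Agent.H986.TA.Reg
import Pool.Graph.R_seed8.H979R2.P2.Main

/-!
Few walks end far from the origin.
-/

set_option autoImplicit false

namespace Pool.Agent.H986.TA

open Finset

open Pool.Agent.TH262.UL (IsSAW a rr)

/-- the box with radius `R` -/
noncomputable def box (R : ℕ) : Finset (ℤ × ℤ) := Icc (-(R : ℤ)) R ×ˢ Icc (-(R : ℤ)) R

lemma box_card (R : ℕ) : ((box R).card : ℝ) = (2 * R + 1) ^ 2 := by
  unfold box
  rw [card_product, Int.card_Icc]
  have : ((R : ℤ) + 1 - -(R : ℤ)).toNat = 2 * R + 1 := by omega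
  rw [this]
  push_cast
  ring

/-- the two encodings -/
def enc (n : ℕ) : (Fin (n + 1) → (Fin 2 → ℤ)) ≃ (Fin (n + 1) → ℤ × ℤ) where
  toFun w := fun i => (w i 0, w i 1)
  invFun w := fun i => ![(w i).1, (w i).2]
  left_inv w := by
    funext i k
    fin_cases k <;> rfl
  right_inv w := by
    funext i
    rfl

lemma enc_saw {n : ℕ} (w : Fin (n + 1) → (Fin 2 → ℤ)) :
    Pool.Agent.H725R2.SB.IsSAW 2 n w ↔ IsSAW n (enc n w) := by
  unfold Pool.Agent.H725R2.SB.IsSAW Pool.Agent.TH262.UL.IsSAW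
  refine and_congr ?_ (and_congr ?_ ?_)
  · constructor
    · intro h
      show (w 0 0, w 0 1) = (0, 0)
      rw [h]
      rfl
    · intro h
      have h1 : (w 0 0, w 0 1) = ((0 : ℤ), (0 : ℤ)) := h
      rw [Prod.mk.injEq] at h1
      funext k
      fin_cases k
      · exact h1.1
      · exact h1.2
  · refine forall_congr' fun i => ?_
    rw [Fin.sum_univ_two]
    rfl
  · constructor
    · intro h i j hij
      have h1 : (w i 0, w i 1) = (w j 0, w j 1) := hij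
      rw [Prod.mk.injEq] at h1
      apply h
      funext k
      fin_cases k
      · exact h1.1
      · exact h1.2
    · intro h i j hij
      apply h
      show (w i 0, w i 1) = (w j 0, w j 1)
      rw [hij]

lemma enc_card (n : ℕ) :
    Nat.card {w : Fin (n + 1) → (Fin 2 → ℤ) // Pool.Agent.H725R2.SB.IsSAW 2 n w} = a n :=
  Nat.card_congr ((enc n).subtypeEquiv fun w => enc_saw w)

lemma tout_eq (l : ℕ) (V : Finset (ℤ × ℤ)) : tout l V =
    Nat.card {w : Fin (l + 1) → ℤ × ℤ // IsSAW l w ∧ w (Fin.last l) ∉ V} := by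
  classical
  unfold tout
  rw [← Set.ncard_coe_finset, ← Nat.card_coe_set_eq]
  symm
  refine Nat.card_congr (Equiv.ofBijective (fun q => ⟨List.ofFn q.1, ?_⟩) ⟨?_, ?_⟩)
  · obtain ⟨q, h1, h2⟩ := q
    rw [mem_coe, mem_filter, en_ofFn]
    exact ⟨ofFn_Wn h1, h2⟩
  · intro q q' h
    simp only [Subtype.mk.injEq] at h
    exact Subtype.ext (List.ofFn_injective h)
  · rintro ⟨b, hq⟩
    rw [mem_coe, mem_filter] at hq
    obtain ⟨hb, hd⟩ := hq
    obtain ⟨w, hw, rfl⟩ := ofFn_surj hb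
    rw [en_ofFn] at hd
    exact ⟨⟨w, hw, hd⟩, rfl⟩

theorem tail : ∃ c C : ℝ, 0 < c ∧ 0 < C ∧ ∀ l R : ℕ, 16 ≤ l →
    (l : ℝ) ^ (1 - c / Real.log (Real.log l)) ≤ R →
    (tout l (box R) : ℝ) ≤ C * Real.exp (-(l : ℝ) ^ (4 / 5 : ℝ)) * a l := by
  obtain ⟨c, C, hc, hC, h⟩ := Pool.Agent.H979R2.P2.plain_typ Pool.Agent.H979R2.P2.fin
  refine ⟨c, C, hc, hC, ?_⟩
  intro l R hl hR
  have h1 := h C le_rfl l hl
  unfold Pool.Agent.H979R2.P2.prob at h1
  rw [enc_card, div_le_iff₀ (Pool.Agent.TH262.UL.a_pos l)] at h1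
  refine le_trans ?_ h1
  rw [tout_eq]
  have hfin := Pool.Agent.H979R2.P2.mom_finite l
  have hfin2 : Finite {w : Fin (l + 1) → (Fin 2 → ℤ) // Pool.Agent.H725R2.SB.IsSAW 2 l w ∧
      (l : ℝ) ^ (1 - c / Real.log (Real.log l)) ≤ Pool.Agent.H979R2.P2.diam w} :=
    Finite.of_injective (fun w => (⟨w.1, w.2.1⟩ : {w : Fin (l + 1) → (Fin 2 → ℤ) //
      Pool.Agent.H725R2.SB.IsSAW 2 l w})) (fun a b h => Subtype.ext (congrArg (fun x => x.1) h))
  refine Nat.cast_le.2 (Nat.card_le_card_of_injective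
    (fun w => ⟨(enc l).symm w.1, ?_, ?_⟩) ?_)
  · rw [enc_saw, Equiv.apply_symm_apply]
    exact w.2.1
  · refine hR.trans ?_
    obtain ⟨w, hw, hout⟩ := w
    refine le_trans ?_ (Pool.Agent.H979R2.P2.le_diam _ (Fin.last l) 0)
    unfold Pool.Agent.H979R2.P2.dist2
    refine Real.le_sqrt_of_sq_le ?_
    rw [Fin.sum_univ_two]
    have e0 : (enc l).symm w 0 = 0 := by
      funext k
      have h0 : w 0 = (0, 0) := hw.1
      fin_cases k
      · show (w 0).1 = 0
        rw [h0]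
      · show (w 0).2 = 0
        rw [h0]
    rw [e0]
    have e1 : (enc l).symm w (Fin.last l) 0 = (w (Fin.last l)).1 := rfl
    have e2 : (enc l).symm w (Fin.last l) 1 = (w (Fin.last l)).2 := rfl
    rw [e1, e2]
    generalize w (Fin.last l) = y at *
    unfold box at hout
    rw [mem_product, mem_Icc, mem_Icc] at hout
    have h3 : (R : ℤ) ≤ |y.1| ∨ (R : ℤ) ≤ |y.2| := by
      by_contra hcon
      push Not at hcon
      obtain ⟨g1, g2⟩ := hcon
      rw [abs_lt] at g1 g2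
      exact hout ⟨⟨g1.1.le, g1.2.le⟩, g2.1.le, g2.2.le⟩
    have hz : ((0 : Fin 2 → ℤ) 0 : ℝ) = 0 := by simp
    simp only [Pi.zero_apply, Int.cast_zero, sub_zero]
    rcases h3 with h3 | h3
    · have h4 : (R : ℝ) ≤ |(y.1 : ℝ)| := by exact_mod_cast h3
      have h5 : (R : ℝ) ^ 2 ≤ (y.1 : ℝ) ^ 2 := by
        rw [← sq_abs (y.1 : ℝ)]
        exact pow_le_pow_left₀ (Nat.cast_nonneg _) h4 2
      nlinarith [sq_nonneg (y.2 : ℝ)]
    · have h4 : (R : ℝ) ≤ |(y.2 : ℝ)| := by exact_mod_cast h3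
      have h5 : (R : ℝ) ^ 2 ≤ (y.2 : ℝ) ^ 2 := by
        rw [← sq_abs (y.2 : ℝ)]
        exact pow_le_pow_left₀ (Nat.cast_nonneg _) h4 2
      nlinarith [sq_nonneg (y.1 : ℝ)]
  · intro w w' hww
    simp only [Subtype.mk.injEq] at hww
    exact Subtype.ext ((enc l).symm.injective hww)

end Pool.Agent.H986.TA
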